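import Pool.Agent.Helper27.SP.S10

/-!
Factorials modulo primes near special points, part 11: windows around the multiples of
`(p - 1) / 3` and `(p - 1) / 4`, the theorem.
-/

set_option autoImplicit false

namespace Pool.Agent.Helper27.SP

open Finset
open scoped Nat

/-- `n` is at distance at least `2` and at most `y` from `c`. -/
def Near (n c y : ℕ) : Prop := 2 ≤ |(n : ℤ) - c| ∧ |(n : ℤ) - c| ≤ y

lemma natAbs_pow_cast {p : ℕ} (J : ℤ) (e : ℕ) :
    ((J.natAbs : ℕ) : ZMod p) ^ (2 * e) = ((J : ℤ) : ZMod p) ^ (2 * e) := by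
  have h1 : ((J.natAbs : ℕ) : ZMod p) = (((J.natAbs : ℕ) : ℤ) : ZMod p) := by
    rw [Int.cast_natCast]
  have h2 : (((J.natAbs : ℕ) : ℤ) : ZMod p) ^ 2 = ((J : ℤ) : ZMod p) ^ 2 := by
    rw [← Int.cast_pow, Int.natAbs_sq, Int.cast_pow]
  rw [h1, pow_mul, h2, ← pow_mul]

lemma exists_c {p x d m : ℕ} [Fact p.Prime] (hd : d = 3 ∨ d = 4) (hp : p = d * m + 1) (hpx : p ≤ x) :
    ∃ c : ℕ, c ^ 2 ≤ 6 * x ∧ (c : ZMod p) ^ (2 * (d - 2)) * ((m ! : ℕ) : ZMod p) ^ (2 * d) = 1 := by
  have hpp := (Fact.out : p.Prime)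
  have hm : 1 ≤ m := by
    rcases Nat.eq_zero_or_pos m with h | h
    · rw [h] at hp
      have := hpp.two_le
      omega
    · exact h
  have hp2 : p ≠ 2 := by
    rcases hd with h | h <;> subst h <;> omega
  rcases hd with h | h
  · subst h
    have h4 : ((1 : ZMod p) / 4) ≠ 0 := by
      have h2ne : (2 : ZMod p) ≠ 0 := by
        intro h
        have h1 : ((2 : ℕ) : ZMod p) = 0 := by exact_mod_cast h
        rw [ZMod.natCast_eq_zero_iff] at h1
        exact hp2 ((Nat.prime_dvd_prime_iff_eq hpp Nat.prime_two).1 h1)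
      have h4 : (4 : ZMod p) ≠ 0 := by
        have : (4 : ZMod p) = 2 * 2 := by norm_num
        rw [this]; exact mul_ne_zero h2ne h2ne
      exact div_ne_zero one_ne_zero h4
    refine ⟨(J3 ((1 : ZMod p) / 4)).natAbs, ?_, ?_⟩
    · have h1 := J3_sq hp2 h4
      have h2 : (((J3 ((1 : ZMod p) / 4)).natAbs : ℕ) : ℤ) ^ 2 ≤ 6 * (x : ℤ) := by
        rw [Int.natAbs_sq]
        have : (p : ℤ) ≤ x := by exact_mod_cast hpx
        linarith
      exact_mod_cast h2
    · have h1 := J3_fact hm hp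
      have h2 := natAbs_pow_cast (p := p) (J3 ((1 : ZMod p) / 4)) 1
      simp only [mul_one] at h2
      rw [show 2 * (3 - 2) = 2 by norm_num, show 2 * 3 = 6 by norm_num, h2]
      exact h1
  · subst h
    refine ⟨(J4 (-1 : ZMod p)).natAbs, ?_, ?_⟩
    · have h1 := J4_sq hp2 (show (-1 : ZMod p) ≠ 0 by simp)
      have h2 : (((J4 (-1 : ZMod p)).natAbs : ℕ) : ℤ) ^ 2 ≤ 6 * (x : ℤ) := by
        rw [Int.natAbs_sq]
        have : (p : ℤ) ≤ x := by exact_mod_cast hpx
        linarith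
      exact_mod_cast h2
    · have h1 := J4_fact hm hp
      have h2 := natAbs_pow_cast (p := p) (J4 (-1 : ZMod p)) 2
      rw [show 2 * (4 - 2) = 2 * 2 by norm_num, show 2 * 4 = 8 by norm_num, h2]
      exact h1

/-- the centre of a window -/
def ctr (d m : ℕ) (w : Bool) : ℕ := if w then (d - 1) * m else m

lemma window {p d m c n k : ℕ} [Fact p.Prime] (hd : d = 3 ∨ d = 4) (hp : p = d * m + 1)
    (hc : (c : ZMod p) ^ (2 * (d - 2)) * ((m ! : ℕ) : ZMod p) ^ (2 * d) = 1) (hn : n < p)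
    (hs : ((n ! : ℕ) : ZMod p) ^ 2 = 1) (w s : Bool)
    (h : if s then n = ctr d m w + k else ctr d m w = n + k) :
    (p : ℤ) ∣ Nz d c (xor w s) k := by
  have hcm : (d - 1) * m + m = d * m := by
    rcases hd with h | h <;> subst h <;> norm_num <;> omega
  have hrefl := reflect_sq (p := p) (n := n) (k := p - 1 - n) (by omega)
  rw [hs, one_mul] at hrefl
  have hd1 : 1 ≤ d := by omega
  cases w with
  | false =>
    cases s with
    | false =>
      simp only [ctr, Bool.false_eq_true, if_false] at h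
      apply Nz_dvd_down hp (by omega) hc
      have : m - k = n := by omega
      rw [this]
      exact hs
    | true =>
      simp only [ctr, Bool.false_eq_true, if_false, if_true] at h
      apply Nz_dvd_up hd1 hp hc
      rw [← h]
      exact hs
  | true =>
    cases s with
    | false =>
      simp only [ctr, Bool.false_eq_true, if_false, if_true] at h
      apply Nz_dvd_up hd1 hp hc
      have : p - 1 - n = m + k := by omega
      rw [← this]
      exact hrefl
    | true =>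
      simp only [ctr, if_true] at h
      apply Nz_dvd_down hp (by omega) hc
      have : p - 1 - n = m - k := by omega
      rw [← this]
      exact hrefl

/-- the index set -/
noncomputable def idx3 (x y : ℕ) : Finset ((ℕ × (Bool × Bool)) × (ℕ × ℕ)) :=
  (({3, 4} : Finset ℕ) ×ˢ (univ ×ˢ univ)) ×ˢ (range (Nat.sqrt (6 * x) + 1) ×ˢ Icc 2 y)

lemma idx3_card (x y : ℕ) (hx : 1 ≤ x) : ((idx3 x y).card : ℝ) ≤ 28 * √(x : ℝ) * y := by
  have h1 : (idx3 x y).card = 8 * ((Nat.sqrt (6 * x) + 1) * (y - 1)) := by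
    unfold idx3
    rw [card_product, card_product, card_product, card_product, card_range, Nat.card_Icc,
      Finset.card_univ]
    simp
  have h2 : (Nat.sqrt (6 * x) : ℝ) ≤ √((6 * x : ℕ) : ℝ) := Real.nat_sqrt_le_real_sqrt
  have h3 : √((6 * x : ℕ) : ℝ) ≤ 2.45 * √(x : ℝ) := by
    rw [Real.sqrt_le_left (by positivity), mul_pow, Real.sq_sqrt (by positivity)]
    push_cast
    have : (0 : ℝ) ≤ x := by positivity
    nlinarith
  have h4 : (1 : ℝ) ≤ √(x : ℝ) := by
    rw [Real.one_le_sqrt]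
    exact_mod_cast hx
  rw [h1]
  push_cast
  have h5 : ((y - 1 : ℕ) : ℝ) ≤ y := by
    have : y - 1 ≤ y := by omega
    exact_mod_cast this
  calc 8 * (((Nat.sqrt (6 * x) : ℝ) + 1) * ((y - 1 : ℕ) : ℝ))
      ≤ 8 * ((3.45 * √(x : ℝ)) * (y : ℝ)) := by
        apply mul_le_mul_of_nonneg_left _ (by norm_num)
        apply mul_le_mul (by linarith) h5 (by positivity) (by positivity)
    _ ≤ _ := by
      have : 0 ≤ √(x : ℝ) * y := by positivity
      nlinarith

theorem cm_points (x y K : ℕ) (hx : 1 ≤ x) (hy : 1 ≤ y) (hK : 1 ≤ K) :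
    ∃ S : Finset ℕ, (S.card : ℝ) ≤ 410 * √(x : ℝ) * (y : ℝ) ^ 2 * Real.log (24 * x * y) / K ∧
      ∀ p : ℕ, p.Prime → p ≤ x → p ∉ S →
        ({n ∈ Ico 1 p | (p : ℤ) ∣ (n ! : ℤ) ^ 2 - 1 ∧
          ((3 ∣ p - 1 ∧ (Near n ((p - 1) / 3) y ∨ Near n (2 * ((p - 1) / 3)) y)) ∨
          (4 ∣ p - 1 ∧ (Near n ((p - 1) / 4) y ∨ Near n (3 * ((p - 1) / 4)) y)))} :
            Set ℕ).ncard < K := by
  classical
  have hx1 : (1 : ℝ) ≤ x := by exact_mod_cast hx
  have hy1 : (1 : ℝ) ≤ y := by exact_mod_cast hy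
  have hxy : (1 : ℝ) ≤ x * y := by nlinarith
  have hlog : 0 < Real.log (24 * x * y) := Real.log_pos (by nlinarith)
  have hK1 : (1 : ℝ) ≤ K := by exact_mod_cast hK
  have hl2 : (0.69 : ℝ) < Real.log 2 := by have := Real.log_two_gt_d9; linarith
  obtain ⟨S, hS, H⟩ := few_primes (idx3 x y) (fun i => Nz i.1.1 i.2.1 (xor i.1.2.1 i.1.2.2) i.2.2)
    (L := 10 * y * Real.log (24 * x * y)) (K := K) (by positivity)
    (by
      rintro ⟨⟨d, w, s⟩, c, k⟩ hi _
      simp only [idx3, mem_product, Finset.mem_Icc, mem_range, mem_insert, mem_singleton] at hi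
      obtain ⟨⟨hd, _⟩, hc, hk1, hk2⟩ := hi
      refine Nz_log hd _ hk1 hk2 ?_ hx
      calc c ^ 2 ≤ (Nat.sqrt (6 * x)) ^ 2 := Nat.pow_le_pow_left (by omega) 2
        _ ≤ 6 * x := Nat.sqrt_le' _)
    (by linarith)
  refine ⟨S, ?_, ?_⟩
  · refine hS.trans ?_
    rw [div_le_div_iff₀ (by positivity) (by linarith)]
    have h1 := mul_le_mul_of_nonneg_right (idx3_card x y hx)
      (by positivity : 0 ≤ 10 * (y : ℝ) * Real.log (24 * x * y))
    have h3 : 0 ≤ √(x : ℝ) * (y : ℝ) ^ 2 * Real.log (24 * x * y) * K := by positivity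
    calc ((idx3 x y).card : ℝ) * (10 * y * Real.log (24 * x * y)) * K
        ≤ (28 * √(x : ℝ) * y) * (10 * y * Real.log (24 * x * y)) * K :=
          mul_le_mul_of_nonneg_right h1 (by linarith)
      _ = 280 * (√(x : ℝ) * (y : ℝ) ^ 2 * Real.log (24 * x * y) * K) := by ring
      _ ≤ 410 * (√(x : ℝ) * (y : ℝ) ^ 2 * Real.log (24 * x * y) * K) * Real.log 2 := by nlinarith
      _ = _ := by ring
  · intro p hp hpx hpS
    have : Fact p.Prime := ⟨hp⟩
    have hlt := H p hp hpS
    let g : (ℕ × (Bool × Bool)) × (ℕ × ℕ) → ℕ := fun i =>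
      if i.1.2.2 then ctr i.1.1 ((p - 1) / i.1.1) i.1.2.1 + i.2.2
        else ctr i.1.1 ((p - 1) / i.1.1) i.1.2.1 - i.2.2
    have hkey : ∀ n : ℕ, n < p → ((n ! : ℕ) : ZMod p) ^ 2 = 1 → ∀ d : ℕ, (d = 3 ∨ d = 4) →
        d ∣ p - 1 → ∀ w : Bool, Near n (ctr d ((p - 1) / d) w) y →
        n ∈ ((idx3 x y).filter fun i => Nz i.1.1 i.2.1 (xor i.1.2.1 i.1.2.2) i.2.2 ≠ 0 ∧
          (p : ℤ) ∣ Nz i.1.1 i.2.1 (xor i.1.2.1 i.1.2.2) i.2.2).image g := by
      intro n hnp hs d hd hdvd w hnear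
      have hpm : p = d * ((p - 1) / d) + 1 := by
        rw [Nat.mul_div_cancel' hdvd]
        have := hp.one_lt
        omega
      obtain ⟨c, hc1, hc2⟩ := exists_c hd hpm hpx
      have hcX : c < Nat.sqrt (6 * x) + 1 := by
        have : c ≤ Nat.sqrt (6 * x) := by rw [Nat.le_sqrt']; exact hc1
        omega
      obtain ⟨hn1, hn2⟩ := hnear
      set m := (p - 1) / d with hm
      rcases lt_or_ge (ctr d m w) n with hlt' | hge
      · have habs : |(n : ℤ) - (ctr d m w : ℕ)| = ((n - ctr d m w : ℕ) : ℤ) := by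
          rw [abs_of_pos (by omega), Nat.cast_sub hlt'.le]
        rw [habs] at hn1 hn2
        rw [mem_image]
        refine ⟨((d, (w, true)), (c, n - ctr d m w)), ?_, ?_⟩
        · rw [mem_filter]
          refine ⟨?_, ?_, ?_⟩
          · simp only [idx3, mem_product, Finset.mem_Icc, mem_range, mem_insert, mem_singleton,
              mem_univ, and_self, and_true]
            exact ⟨hd, hcX, by omega, by omega⟩
          · show Nz d c (xor w true) (n - ctr d m w) ≠ 0
            exact Nz_ne (by omega) _ (by omega)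
          · exact window hd hpm hc2 hnp hs w true (by simp only [if_true]; omega)
        · simp only [g, if_true, ← hm]
          omega
      · have habs : |(n : ℤ) - (ctr d m w : ℕ)| = ((ctr d m w - n : ℕ) : ℤ) := by
          rw [abs_of_nonpos (by omega), Nat.cast_sub hge]; ring
        rw [habs] at hn1 hn2
        rw [mem_image]
        refine ⟨((d, (w, false)), (c, ctr d m w - n)), ?_, ?_⟩
        · rw [mem_filter]
          refine ⟨?_, ?_, ?_⟩
          · simp only [idx3, mem_product, Finset.mem_Icc, mem_range, mem_insert, mem_singleton,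
              mem_univ, and_self, and_true]
            exact ⟨hd, hcX, by omega, by omega⟩
          · show Nz d c (xor w false) (ctr d m w - n) ≠ 0
            exact Nz_ne (by omega) _ (by omega)
          · exact window hd hpm hc2 hnp hs w false (by
              simp only [Bool.false_eq_true, if_false]; omega)
        · simp only [g, Bool.false_eq_true, if_false, ← hm]
          omega
    have hsub : ({n ∈ Ico 1 p | (p : ℤ) ∣ (n ! : ℤ) ^ 2 - 1 ∧
          ((3 ∣ p - 1 ∧ (Near n ((p - 1) / 3) y ∨ Near n (2 * ((p - 1) / 3)) y)) ∨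
          (4 ∣ p - 1 ∧ (Near n ((p - 1) / 4) y ∨ Near n (3 * ((p - 1) / 4)) y)))} : Set ℕ) ⊆
        (((idx3 x y).filter fun i => Nz i.1.1 i.2.1 (xor i.1.2.1 i.1.2.2) i.2.2 ≠ 0 ∧
          (p : ℤ) ∣ Nz i.1.1 i.2.1 (xor i.1.2.1 i.1.2.2) i.2.2).image g : Finset ℕ) := by
      intro n hn
      obtain ⟨hn0, hdvd, hcase⟩ := hn
      rw [Finset.mem_Ico] at hn0
      have hs := sq_one_of_dvd hdvd
      rw [mem_coe]
      rcases hcase with ⟨hd, h | h⟩ | ⟨hd, h | h⟩
      · exact hkey n hn0.2 hs 3 (Or.inl rfl) hd false h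
      · exact hkey n hn0.2 hs 3 (Or.inl rfl) hd true h
      · exact hkey n hn0.2 hs 4 (Or.inr rfl) hd false h
      · exact hkey n hn0.2 hs 4 (Or.inr rfl) hd true h
    have h1 := Set.ncard_le_ncard hsub (Finset.finite_toSet _)
    rw [Set.ncard_coe_finset] at h1
    have h2 := h1.trans card_image_le
    have h3 : (((idx3 x y).filter fun i => Nz i.1.1 i.2.1 (xor i.1.2.1 i.1.2.2) i.2.2 ≠ 0 ∧
          (p : ℤ) ∣ Nz i.1.1 i.2.1 (xor i.1.2.1 i.1.2.2) i.2.2).card) < K := by exact_mod_cast hlt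
    omega

end Pool.Agent.Helper27.SP
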