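import Pool.Agent.Helper27.SP.S5
import Pool.Agent.Helper27.SP.S11

/-!
Factorials modulo almost all primes near special points, asymptotic form.
-/

set_option autoImplicit false

namespace Pool.Agent.Helper27.SP

open Finset Polynomial
open scoped Nat

/-- `⌈x ^ a⌉ ≤ 2 x ^ a` -/
private theorem ceil_le {x : ℕ} (hx : 1 ≤ x) {a : ℝ} (ha : 0 ≤ a) :
    1 ≤ ⌈(x : ℝ) ^ a⌉₊ ∧ (⌈(x : ℝ) ^ a⌉₊ : ℝ) ≤ 2 * (x : ℝ) ^ a := by
  have h1 : (1 : ℝ) ≤ (x : ℝ) ^ a := Real.one_le_rpow (by exact_mod_cast hx) ha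
  refine ⟨Nat.one_le_iff_ne_zero.2 (Nat.ceil_pos.2 (by linarith)).ne', ?_⟩
  have h2 := Nat.ceil_lt_add_one (by linarith : (0 : ℝ) ≤ (x : ℝ) ^ a)
  linarith

private theorem near_le {p x : ℕ} (hpx : p ≤ x) {a t : ℝ} (ha : 0 ≤ a)
    (ht : t ≤ (p : ℝ) ^ a) : t ≤ (⌈(x : ℝ) ^ a⌉₊ : ℝ) :=
  ht.trans ((Real.rpow_le_rpow (Nat.cast_nonneg p) (by exact_mod_cast hpx) ha).trans (Nat.le_ceil _))

/-- `log (c x ^ 2) ≤ (c x ^ 2) ^ (ε / 2) / (ε / 2)` -/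
private theorem log_le {c z ε : ℝ} {x : ℕ} (hx : 1 ≤ x) (hε : 0 < ε) (hz : 0 < z)
    (hzc : z ≤ c * (x : ℝ) ^ 2) : Real.log z ≤ c ^ (ε / 2) * (2 / ε) * (x : ℝ) ^ ε := by
  have hx0 : (0 : ℝ) < x := by exact_mod_cast hx
  have hc : 0 < c := by
    by_contra h
    push Not at h
    have : c * (x : ℝ) ^ 2 ≤ 0 := mul_nonpos_of_nonpos_of_nonneg h (by positivity)
    linarith
  have h1 : Real.log z ≤ z ^ (ε / 2) / (ε / 2) := Real.log_le_rpow_div hz.le (by linarith)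
  have h2 : z ^ (ε / 2) ≤ (c * (x : ℝ) ^ 2) ^ (ε / 2) := Real.rpow_le_rpow hz.le hzc (by linarith)
  have h3 : (c * (x : ℝ) ^ 2) ^ (ε / 2) = c ^ (ε / 2) * (x : ℝ) ^ ε := by
    rw [Real.mul_rpow hc.le (by positivity), ← Real.rpow_natCast, ← Real.rpow_mul hx0.le]
    congr 2
    push_cast
    ring
  refine h1.trans ?_
  rw [div_le_iff₀ (by linarith)]
  refine h2.trans (le_of_eq ?_)
  rw [h3]
  field_simp

/-- the bound for the number of exceptional primes -/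
private theorem card_le {x : ℕ} (hx : 1 ≤ x) {ε A c z k : ℝ} (hε : 0 < ε) (hA : 0 ≤ A) (hz : 0 < z)
    (hzc : z ≤ c * (x : ℝ) ^ 2) (hk : k ≤ 1 - 2 * ε) :
    A * (x : ℝ) ^ k * Real.log z ≤ A * (c ^ (ε / 2) * (2 / ε)) * (x : ℝ) ^ (1 - ε) := by
  have hx1 : (1 : ℝ) ≤ x := by exact_mod_cast hx
  have hx0 : (0 : ℝ) < x := by linarith
  have hc : 0 < c := by
    by_contra h
    push Not at h
    have : c * (x : ℝ) ^ 2 ≤ 0 := mul_nonpos_of_nonpos_of_nonneg h (by positivity)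
    linarith
  have h1 := log_le hx hε hz hzc
  have h2 : (x : ℝ) ^ k ≤ (x : ℝ) ^ (1 - 2 * ε) := Real.rpow_le_rpow_of_exponent_le hx1 hk
  calc A * (x : ℝ) ^ k * Real.log z
      ≤ A * (x : ℝ) ^ k * (c ^ (ε / 2) * (2 / ε) * (x : ℝ) ^ ε) :=
        mul_le_mul_of_nonneg_left h1 (by positivity)
    _ ≤ A * (x : ℝ) ^ (1 - 2 * ε) * (c ^ (ε / 2) * (2 / ε) * (x : ℝ) ^ ε) :=
        mul_le_mul_of_nonneg_right (mul_le_mul_of_nonneg_left h2 hA) (by positivity)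
    _ = A * (c ^ (ε / 2) * (2 / ε)) * ((x : ℝ) ^ (1 - 2 * ε) * (x : ℝ) ^ ε) := by ring
    _ = A * (c ^ (ε / 2) * (2 / ε)) * (x : ℝ) ^ (1 - ε) := by
        rw [← Real.rpow_add hx0]
        congr 2
        ring

private theorem pow_le_sq {x : ℕ} (hx : 1 ≤ x) {a : ℝ} (ha : a ≤ 1) : (x : ℝ) ^ a ≤ (x : ℝ) ^ 2 := by
  have hx1 : (1 : ℝ) ≤ x := by exact_mod_cast hx
  rw [← Real.rpow_natCast]
  exact Real.rpow_le_rpow_of_exponent_le hx1 (by push_cast; linarith)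

private theorem partA (ε : ℝ) (hε : 0 < ε) (hε' : ε < 1 / 4) : ∃ K : ℝ, ∀ x : ℕ, 1 ≤ x →
    ∃ S : Finset ℕ, (S.card : ℝ) ≤ K * (x : ℝ) ^ (1 - ε) ∧ ∀ p : ℕ, p.Prime → p ≤ x → p ∉ S →
      ∀ n : ℕ, 1 < n → n + 2 < p → 2 * n + 1 ≠ p → (p : ℤ) ∣ (n ! : ℤ) ^ 2 - 1 →
        (p : ℝ) ^ (1 / 2 - ε) < n ∧ (p : ℝ) ^ (1 / 2 - ε) < |(n : ℝ) - p / 2| ∧
          (p : ℝ) ^ (1 / 2 - ε) < p - n := by
  refine ⟨24 * 4 * (4 ^ (ε / 2) * (2 / ε)), fun x hx => ?_⟩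
  have hx1 : (1 : ℝ) ≤ x := by exact_mod_cast hx
  have hx0 : (0 : ℝ) < x := by linarith
  obtain ⟨hy1, hy2⟩ := ceil_le hx (by linarith : (0 : ℝ) ≤ 1 / 2 - ε)
  obtain ⟨y, hy⟩ : ∃ y, y = ⌈(x : ℝ) ^ (1 / 2 - ε)⌉₊ := ⟨_, rfl⟩
  rw [← hy] at hy1 hy2
  have hy0 : (1 : ℝ) ≤ y := by exact_mod_cast hy1
  obtain ⟨S, hS, H⟩ := special_values y 1 hy1 le_rfl
  refine ⟨S, ?_, ?_⟩
  · have h1 : (y : ℝ) ^ 2 ≤ 4 * (x : ℝ) ^ (1 - 2 * ε) := by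
      have h2 : (x : ℝ) ^ (1 - 2 * ε) = ((x : ℝ) ^ (1 / 2 - ε)) ^ 2 := by
        rw [← Real.rpow_natCast, ← Real.rpow_mul hx0.le]
        congr 1
        push_cast
        ring
      rw [h2]
      nlinarith
    have hlog : 0 ≤ Real.log (2 * y) := Real.log_nonneg (by linarith)
    have h3 := card_le hx (A := 24 * 4) (c := 4) (z := 2 * y) (k := 1 - 2 * ε) hε (by norm_num)
      (by linarith) (by
        have := pow_le_sq hx (by linarith : 1 / 2 - ε ≤ 1)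
        linarith) le_rfl
    refine hS.trans (le_trans ?_ h3)
    rw [Nat.cast_one, div_one]
    refine mul_le_mul_of_nonneg_right ?_ hlog
    linarith
  · intro p hp hpx hpS n hn1 hn2 hn3 hdvd
    have h1 := H p hp hpS
    rw [Nat.lt_one_iff, Finset.card_eq_zero, Finset.filter_eq_empty_iff] at h1
    have key : ¬ (n ≤ y ∨ |2 * (n : ℤ) - p| ≤ 2 * y ∨ p ≤ n + y) := fun h =>
      h1 (Finset.mem_Ico.2 ⟨by omega, by omega⟩) ⟨hdvd, by omega, hn3, by omega, by omega, h⟩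
    have ha : (0 : ℝ) ≤ 1 / 2 - ε := by linarith
    refine ⟨lt_of_not_ge fun h => key (Or.inl ?_), lt_of_not_ge fun h => key (Or.inr (Or.inl ?_)),
      lt_of_not_ge fun h => key (Or.inr (Or.inr ?_))⟩
    · have h2 := near_le hpx ha h
      rw [← hy] at h2
      exact_mod_cast h2
    · have h2 := near_le hpx ha h
      rw [← hy] at h2
      have h3 : |2 * (n : ℝ) - p| ≤ 2 * y := by
        have : 2 * (n : ℝ) - p = 2 * (n - p / 2) := by ring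
        rw [this, abs_mul, abs_two]
        linarith
      exact_mod_cast h3
    · have h2 := near_le hpx ha h
      rw [← hy] at h2
      have h3 : (p : ℝ) ≤ n + y := by linarith
      exact_mod_cast h3

private theorem partB (ε : ℝ) (hε : 0 < ε) (hε' : ε < 1 / 4) : ∃ K : ℝ, ∀ x : ℕ, 1 ≤ x →
    ∃ S : Finset ℕ, (S.card : ℝ) ≤ K * (x : ℝ) ^ (1 - ε) ∧ ∀ p : ℕ, p.Prime → p ≤ x → p ∉ S →
      ∀ n c : ℕ, 3 * c = p - 1 ∨ 3 * c = 2 * (p - 1) ∨ 4 * c = p - 1 ∨ 4 * c = 3 * (p - 1) →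
        2 ≤ |(n : ℤ) - c| → |(n : ℝ) - c| ≤ (p : ℝ) ^ (1 / 4 - ε) → 1 ≤ n → n < p →
          ¬ (p : ℤ) ∣ (n ! : ℤ) ^ 2 - 1 := by
  refine ⟨410 * 4 * (48 ^ (ε / 2) * (2 / ε)), fun x hx => ?_⟩
  have hx1 : (1 : ℝ) ≤ x := by exact_mod_cast hx
  have hx0 : (0 : ℝ) < x := by linarith
  obtain ⟨hy1, hy2⟩ := ceil_le hx (by linarith : (0 : ℝ) ≤ 1 / 4 - ε)
  obtain ⟨y, hy⟩ : ∃ y, y = ⌈(x : ℝ) ^ (1 / 4 - ε)⌉₊ := ⟨_, rfl⟩
  rw [← hy] at hy1 hy2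
  have hy0 : (1 : ℝ) ≤ y := by exact_mod_cast hy1
  obtain ⟨S, hS, H⟩ := cm_points x y 1 hx hy1 le_rfl
  refine ⟨S, ?_, ?_⟩
  · have h1 : √(x : ℝ) * (y : ℝ) ^ 2 ≤ 4 * (x : ℝ) ^ (1 - 2 * ε) := by
      have h2 : (x : ℝ) ^ (1 - 2 * ε) = √(x : ℝ) * ((x : ℝ) ^ (1 / 4 - ε)) ^ 2 := by
        rw [← Real.rpow_natCast, ← Real.rpow_mul hx0.le, Real.sqrt_eq_rpow, ← Real.rpow_add hx0]
        congr 1
        push_cast
        ring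
      rw [h2]
      have h3 : (y : ℝ) ^ 2 ≤ 4 * ((x : ℝ) ^ (1 / 4 - ε)) ^ 2 := by nlinarith
      have h4 := Real.sqrt_nonneg (x : ℝ)
      nlinarith
    have hz1 : (1 : ℝ) ≤ 24 * x * y := by nlinarith
    have hlog : 0 ≤ Real.log (24 * x * y) := Real.log_nonneg hz1
    have h3 := card_le hx (A := 410 * 4) (c := 48) (z := 24 * x * y) (k := 1 - 2 * ε) hε (by norm_num)
      (by linarith) (by
        have h5 : (x : ℝ) ^ (1 / 4 - ε) ≤ x := by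
          have := Real.rpow_le_rpow_of_exponent_le hx1 (by linarith : 1 / 4 - ε ≤ 1)
          rwa [Real.rpow_one] at this
        nlinarith) le_rfl
    refine hS.trans (le_trans ?_ h3)
    rw [Nat.cast_one, div_one]
    refine mul_le_mul_of_nonneg_right ?_ hlog
    nlinarith
  · intro p hp hpx hpS n c hc h2c hnc hn1 hnp hdvd
    have h1 := H p hp hpx hpS
    have h2 := near_le hpx (by linarith : (0 : ℝ) ≤ 1 / 4 - ε) hnc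
    rw [← hy] at h2
    have h3 : |(n : ℤ) - c| ≤ y := by exact_mod_cast h2
    have hp2 := hp.two_le
    rw [Nat.lt_one_iff, Set.ncard_eq_zero ((Finset.finite_toSet (Ico 1 p)).subset
      (fun a ha => Finset.mem_coe.2 ha.1))] at h1
    have h4 : n ∈ ({n ∈ Ico 1 p | (p : ℤ) ∣ (n ! : ℤ) ^ 2 - 1 ∧
            ((3 ∣ p - 1 ∧ (Near n ((p - 1) / 3) y ∨ Near n (2 * ((p - 1) / 3)) y)) ∨
            (4 ∣ p - 1 ∧ (Near n ((p - 1) / 4) y ∨ Near n (3 * ((p - 1) / 4)) y)))} : Set ℕ) := by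
      refine ⟨Finset.mem_Ico.2 ⟨hn1, hnp⟩, hdvd, ?_⟩
      have hN : Near n c y := ⟨h2c, h3⟩
      rcases hc with hc | hc | hc | hc
      · left
        refine ⟨⟨c, hc.symm⟩, Or.inl ?_⟩
        have : (p - 1) / 3 = c := by omega
        rw [this]
        exact hN
      · left
        have h5 : 3 ∣ p - 1 := by omega
        refine ⟨h5, Or.inr ?_⟩
        have : 2 * ((p - 1) / 3) = c := by omega
        rw [this]
        exact hN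
      · right
        refine ⟨⟨c, hc.symm⟩, Or.inl ?_⟩
        have : (p - 1) / 4 = c := by omega
        rw [this]
        exact hN
      · right
        have h5 : 4 ∣ p - 1 := by omega
        refine ⟨h5, Or.inr ?_⟩
        have : 3 * ((p - 1) / 4) = c := by omega
        rw [this]
        exact hN
    rw [h1] at h4
    exact h4

private theorem cube_le {x : ℕ} (hx : 1 ≤ x) {ε y : ℝ} (hy0 : 0 ≤ y)
    (hy : y ≤ 2 * (x : ℝ) ^ (1 / 3 - ε)) : y ^ 3 ≤ 8 * (x : ℝ) ^ (1 - 3 * ε) := by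
  have hx0 : (0 : ℝ) < x := by exact_mod_cast hx
  have h2 : (x : ℝ) ^ (1 - 3 * ε) = ((x : ℝ) ^ (1 / 3 - ε)) ^ 3 := by
    rw [← Real.rpow_natCast, ← Real.rpow_mul hx0.le]
    congr 1
    push_cast
    ring
  rw [h2]
  calc y ^ 3 ≤ (2 * (x : ℝ) ^ (1 / 3 - ε)) ^ 3 := pow_le_pow_left₀ hy0 hy 3
    _ = 8 * ((x : ℝ) ^ (1 / 3 - ε)) ^ 3 := by ring

private theorem partC (ε : ℝ) (hε : 0 < ε) (hε' : ε < 1 / 4) (B : ℕ) : ∃ K : ℝ, ∀ x : ℕ, 1 ≤ x →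
    ∃ S : Finset ℕ, (S.card : ℝ) ≤ K * (x : ℝ) ^ (1 - ε) ∧ ∀ p : ℕ, p.Prime → p ≤ x → p ∉ S →
      ∀ b u n n' : ℕ, 1 ≤ b → b ≤ B → u ≤ b → Nat.Coprime u b → 1 ≤ n → n < n' → n' < p →
        |(n : ℝ) - u * p / b| ≤ (p : ℝ) ^ (1 / 3 - ε) →
        |(n' : ℝ) - u * p / b| ≤ (p : ℝ) ^ (1 / 3 - ε) → ¬ (p : ℤ) ∣ (n' ! : ℤ) - n ! := by
  rcases Nat.eq_zero_or_pos B with hB | hB
  · refine ⟨0, fun x hx => ⟨∅, by simp, ?_⟩⟩
    intro p _ _ _ b u n n' hb hbB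
    omega
  have hB1 : (1 : ℝ) ≤ B := by exact_mod_cast hB
  refine ⟨210 * (B : ℝ) ^ 2 * 8 * ((4 * B) ^ (ε / 2) * (2 / ε)) + (B + 1), fun x hx => ?_⟩
  have hx1 : (1 : ℝ) ≤ x := by exact_mod_cast hx
  have hx0 : (0 : ℝ) < x := by linarith
  obtain ⟨hy1, hy2⟩ := ceil_le hx (by linarith : (0 : ℝ) ≤ 1 / 3 - ε)
  obtain ⟨y, hy⟩ : ∃ y, y = ⌈(x : ℝ) ^ (1 / 3 - ε)⌉₊ := ⟨_, rfl⟩
  rw [← hy] at hy1 hy2
  have hy0 : (1 : ℝ) ≤ y := by exact_mod_cast hy1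
  have hyx : (x : ℝ) ^ (1 / 3 - ε) ≤ (x : ℝ) ^ 2 := pow_le_sq hx (by linarith)
  obtain ⟨S, hS, H⟩ := rational_points B y 1 hB hy1 le_rfl
  refine ⟨S ∪ range (B + 1), ?_, ?_⟩
  · have h1 := cube_le hx (ε := ε) (by linarith) hy2
    have hBy : (1 : ℝ) ≤ 2 * B * y := by nlinarith
    have hlog : 0 ≤ Real.log (2 * B * y) := Real.log_nonneg hBy
    have h3 := card_le hx (A := 210 * (B : ℝ) ^ 2 * 8) (c := 4 * B) (z := 2 * B * y)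
      (k := 1 - 3 * ε) hε (by positivity) (by linarith) (by nlinarith) (by linarith)
    have h4 : (S.card : ℝ) ≤
        210 * (B : ℝ) ^ 2 * 8 * ((4 * B) ^ (ε / 2) * (2 / ε)) * (x : ℝ) ^ (1 - ε) := by
      refine hS.trans (le_trans ?_ h3)
      rw [Nat.cast_one, one_pow, div_one]
      refine mul_le_mul_of_nonneg_right ?_ hlog
      have h5 : (0 : ℝ) ≤ 210 * (B : ℝ) ^ 2 := by positivity
      calc 210 * (B : ℝ) ^ 2 * (y : ℝ) ^ 3 ≤ 210 * (B : ℝ) ^ 2 * (8 * (x : ℝ) ^ (1 - 3 * ε)) :=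
            mul_le_mul_of_nonneg_left h1 h5
        _ = _ := by ring
    have h5 : ((S ∪ range (B + 1)).card : ℝ) ≤ S.card + (B + 1) := by
      have := Finset.card_union_le S (range (B + 1))
      rw [card_range] at this
      exact_mod_cast this
    have h6 : (1 : ℝ) ≤ (x : ℝ) ^ (1 - ε) := Real.one_le_rpow hx1 (by linarith)
    have h7 : ((B : ℝ) + 1) ≤ (B + 1) * (x : ℝ) ^ (1 - ε) := by nlinarith
    linarith
  · intro p hp hpx hpS b u n n' hb hbB hub hcop hn1 hnn' hn'p h1 h2 hdvd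
    rw [Finset.mem_union, not_or, Finset.mem_range] at hpS
    have hBp : B < p := by omega
    have h3 := H p hp hBp hpS.1 b u hb hbB hub hcop (n ! : ℤ)
    have hb0 : (0 : ℝ) < b := by exact_mod_cast hb
    have hconv : ∀ t : ℕ, |(t : ℝ) - u * p / b| ≤ (p : ℝ) ^ (1 / 3 - ε) →
        |(b : ℤ) * (t : ℤ) - u * p| ≤ b * y := by
      intro t ht
      have h4 := near_le hpx (by linarith : (0 : ℝ) ≤ 1 / 3 - ε) ht
      rw [← hy] at h4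
      have h5 : |(b : ℝ) * t - u * p| ≤ b * y := by
        have h6 : (b : ℝ) * t - u * p = b * (t - u * p / b) := by
          field_simp
        rw [h6, abs_mul, abs_of_pos hb0]
        exact mul_le_mul_of_nonneg_left h4 hb0.le
      exact_mod_cast h5
    have h4 : n ∈ (Ico 1 p).filter fun k : ℕ => |(b : ℤ) * (k : ℤ) - u * p| ≤ b * y ∧
        (p : ℤ) ∣ (k ! : ℤ) - n ! :=
      Finset.mem_filter.2 ⟨Finset.mem_Ico.2 ⟨hn1, by omega⟩, hconv n h1, by rw [sub_self]; exact dvd_zero _⟩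
    have h5 : n' ∈ (Ico 1 p).filter fun k : ℕ => |(b : ℤ) * (k : ℤ) - u * p| ≤ b * y ∧
        (p : ℤ) ∣ (k ! : ℤ) - n ! :=
      Finset.mem_filter.2 ⟨Finset.mem_Ico.2 ⟨by omega, hn'p⟩, hconv n' h2, hdvd⟩
    have h6 := Finset.card_le_one.1 h3 n h4 n' h5
    omega

private theorem partD (ε : ℝ) (hε : 0 < ε) (hε' : ε < 1 / 4) (B : ℕ) : ∃ K : ℝ, ∀ x : ℕ, 1 ≤ x →
    ∃ S : Finset ℕ, (S.card : ℝ) ≤ K * (x : ℝ) ^ (1 - ε) ∧ ∀ p : ℕ, p.Prime → p ≤ x → p ∉ S →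
      ∀ F : ℤ[X], Irreducible F → F.natDegree ≤ B → (∀ i, |F.coeff i| ≤ B) →
        ∀ m : ℤ, (p : ℤ) ∣ F.eval m → ∀ n n' : ℕ, n < n' → n' < p →
          |(n : ℝ) - m| ≤ (p : ℝ) ^ (1 / 3 - ε) → |(n' : ℝ) - m| ≤ (p : ℝ) ^ (1 / 3 - ε) →
          (p : ℤ) ∣ (n' ! : ℤ) - n ! →
          F = ∏ i ∈ range (n' - n), (X + C ((n : ℤ) - m + ((i : ℤ) + 1))) - 1 ∨
          F = -(∏ i ∈ range (n' - n), (X + C ((n : ℤ) - m + ((i : ℤ) + 1))) - 1) := by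
  rcases Nat.eq_zero_or_pos B with hB | hB
  · refine ⟨0, fun x hx => ⟨∅, by simp, ?_⟩⟩
    intro p _ _ _ F hF _ hc
    exfalso
    apply hF.ne_zero
    ext i
    have h1 := hc i
    rw [hB, Nat.cast_zero] at h1
    rw [coeff_zero]
    exact abs_eq_zero.1 (le_antisymm h1 (abs_nonneg _))
  have hB1 : (1 : ℝ) ≤ B := by exact_mod_cast hB
  refine ⟨90 * (B : ℝ) * (3 * B) ^ (B + 1) * 8 * ((4 * B) ^ (ε / 2) * (2 / ε)), fun x hx => ?_⟩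
  have hx1 : (1 : ℝ) ≤ x := by exact_mod_cast hx
  have hx0 : (0 : ℝ) < x := by linarith
  obtain ⟨hy1, hy2⟩ := ceil_le hx (by linarith : (0 : ℝ) ≤ 1 / 3 - ε)
  obtain ⟨y, hy⟩ : ∃ y, y = ⌈(x : ℝ) ^ (1 / 3 - ε)⌉₊ := ⟨_, rfl⟩
  rw [← hy] at hy1 hy2
  have hy0 : (1 : ℝ) ≤ y := by exact_mod_cast hy1
  have hyx : (x : ℝ) ^ (1 / 3 - ε) ≤ (x : ℝ) ^ 2 := pow_le_sq hx (by linarith)
  obtain ⟨S, hS, H⟩ := algebraic_points B B y hB hB hy1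
  refine ⟨S, ?_, ?_⟩
  · have h1 := cube_le hx (ε := ε) (by linarith) hy2
    have hBy : (1 : ℝ) ≤ 2 * B * y := by nlinarith
    have hlog : 0 ≤ Real.log (2 * B * y) := Real.log_nonneg hBy
    have h3 := card_le hx (A := 90 * (B : ℝ) * (3 * B) ^ (B + 1) * 8) (c := 4 * B) (z := 2 * B * y)
      (k := 1 - 3 * ε) hε (by positivity) (by linarith) (by nlinarith) (by linarith)
    refine hS.trans (le_trans ?_ h3)
    refine mul_le_mul_of_nonneg_right ?_ hlog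
    have h5 : (0 : ℝ) ≤ 90 * (B : ℝ) * (3 * B) ^ (B + 1) := by positivity
    calc 90 * (B : ℝ) * (3 * B) ^ (B + 1) * (y : ℝ) ^ 3
        ≤ 90 * (B : ℝ) * (3 * B) ^ (B + 1) * (8 * (x : ℝ) ^ (1 - 3 * ε)) :=
          mul_le_mul_of_nonneg_left h1 h5
      _ = _ := by ring
  · intro p hp hpx hpS F hF hd hc m hm n n' hnn' hn'p h1 h2 hdvd
    have hconv : ∀ t : ℕ, |(t : ℝ) - m| ≤ (p : ℝ) ^ (1 / 3 - ε) → |(t : ℤ) - m| ≤ y := by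
      intro t ht
      have h4 := near_le hpx (by linarith : (0 : ℝ) ≤ 1 / 3 - ε) ht
      rw [← hy] at h4
      exact_mod_cast h4
    exact H p hp hpS F hF hd hc m hm n n' (by omega) hnn' (hconv n h1) (hconv n' h2) hdvd

/-- the asymptotic form -/
theorem crisp (ε : ℝ) (hε : 0 < ε) (hε' : ε < 1 / 4) (B : ℕ) : ∃ K : ℝ, ∀ x : ℕ, 1 ≤ x →
    ∃ S : Finset ℕ, (S.card : ℝ) ≤ K * (x : ℝ) ^ (1 - ε) ∧ ∀ p : ℕ, p.Prime → p ≤ x → p ∉ S →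
      (∀ n : ℕ, 1 < n → n + 2 < p → 2 * n + 1 ≠ p → (p : ℤ) ∣ (n ! : ℤ) ^ 2 - 1 →
        (p : ℝ) ^ (1 / 2 - ε) < n ∧ (p : ℝ) ^ (1 / 2 - ε) < |(n : ℝ) - p / 2| ∧
          (p : ℝ) ^ (1 / 2 - ε) < p - n) ∧
      (∀ n c : ℕ, 3 * c = p - 1 ∨ 3 * c = 2 * (p - 1) ∨ 4 * c = p - 1 ∨ 4 * c = 3 * (p - 1) →
        2 ≤ |(n : ℤ) - c| → |(n : ℝ) - c| ≤ (p : ℝ) ^ (1 / 4 - ε) → 1 ≤ n → n < p →
          ¬ (p : ℤ) ∣ (n ! : ℤ) ^ 2 - 1) ∧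
      (∀ b u n n' : ℕ, 1 ≤ b → b ≤ B → u ≤ b → Nat.Coprime u b → 1 ≤ n → n < n' → n' < p →
        |(n : ℝ) - u * p / b| ≤ (p : ℝ) ^ (1 / 3 - ε) →
        |(n' : ℝ) - u * p / b| ≤ (p : ℝ) ^ (1 / 3 - ε) → ¬ (p : ℤ) ∣ (n' ! : ℤ) - n !) ∧
      ∀ F : ℤ[X], Irreducible F → F.natDegree ≤ B → (∀ i, |F.coeff i| ≤ B) →
        ∀ m : ℤ, (p : ℤ) ∣ F.eval m → ∀ n n' : ℕ, n < n' → n' < p →
          |(n : ℝ) - m| ≤ (p : ℝ) ^ (1 / 3 - ε) → |(n' : ℝ) - m| ≤ (p : ℝ) ^ (1 / 3 - ε) →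
          (p : ℤ) ∣ (n' ! : ℤ) - n ! →
          F = ∏ i ∈ range (n' - n), (X + C ((n : ℤ) - m + ((i : ℤ) + 1))) - 1 ∨
          F = -(∏ i ∈ range (n' - n), (X + C ((n : ℤ) - m + ((i : ℤ) + 1))) - 1) := by
  obtain ⟨K₁, h₁⟩ := partA ε hε hε'
  obtain ⟨K₂, h₂⟩ := partB ε hε hε'
  obtain ⟨K₃, h₃⟩ := partC ε hε hε' B
  obtain ⟨K₄, h₄⟩ := partD ε hε hε' B
  refine ⟨K₁ + K₂ + (K₃ + K₄), fun x hx => ?_⟩
  obtain ⟨S₁, a₁, b₁⟩ := h₁ x hx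
  obtain ⟨S₂, a₂, b₂⟩ := h₂ x hx
  obtain ⟨S₃, a₃, b₃⟩ := h₃ x hx
  obtain ⟨S₄, a₄, b₄⟩ := h₄ x hx
  refine ⟨(S₁ ∪ S₂) ∪ (S₃ ∪ S₄), ?_, fun p hp hpx hpS => ?_⟩
  · have e1 := Finset.card_union_le (S₁ ∪ S₂) (S₃ ∪ S₄)
    have e2 := Finset.card_union_le S₁ S₂
    have e3 := Finset.card_union_le S₃ S₄
    have e4 : (((S₁ ∪ S₂) ∪ (S₃ ∪ S₄)).card : ℝ) ≤ (S₁.card + S₂.card) + (S₃.card + S₄.card) := by
      exact_mod_cast e1.trans (Nat.add_le_add e2 e3)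
    refine e4.trans ?_
    rw [add_mul, add_mul, add_mul]
    linarith
  · simp only [Finset.mem_union, not_or] at hpS
    exact ⟨b₁ p hp hpx hpS.1.1, b₂ p hp hpx hpS.1.2, b₃ p hp hpx hpS.2.1, b₄ p hp hpx hpS.2.2⟩

end Pool.Agent.Helper27.SP
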