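import Pool.Agent.Helper7.FR.A4

/-!
Factorials modulo primes near special points, part 1: counting primes which divide many members
of a finite family of integers.
-/

set_option autoImplicit false

namespace Pool.Agent.Helper27.SP

open Finset
open scoped Nat

lemma card_primeFactors_le {N : ℤ} (hN : N ≠ 0) {L : ℝ} (hL : Real.log |(N : ℝ)| ≤ L) :
    (N.natAbs.primeFactors.card : ℝ) * Real.log 2 ≤ L := by
  refine le_trans ?_ hL
  have h0 : N.natAbs ≠ 0 := Int.natAbs_ne_zero.2 hN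
  have h1 : 2 ^ N.natAbs.primeFactors.card ≤ N.natAbs := by
    calc 2 ^ N.natAbs.primeFactors.card = ∏ p ∈ N.natAbs.primeFactors, 2 := by
          rw [prod_const]
      _ ≤ ∏ p ∈ N.natAbs.primeFactors, p := by
          apply prod_le_prod' fun p hp => (Nat.prime_of_mem_primeFactors hp).two_le
      _ ≤ N.natAbs := Nat.le_of_dvd (Nat.pos_of_ne_zero h0) (Nat.prod_primeFactors_dvd _)
  have h2 : (2 : ℝ) ^ N.natAbs.primeFactors.card ≤ |(N : ℝ)| := by
    have : ((N.natAbs : ℕ) : ℝ) = |(N : ℝ)| := by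
      rw [Nat.cast_natAbs, Int.cast_abs]
    rw [← this]
    exact_mod_cast h1
  have h3 := Real.log_le_log (by positivity) h2
  rwa [Real.log_pow] at h3

/-- Few primes divide at least `K` nonzero members of a finite family of integers. -/
theorem few_primes {α : Type*} [DecidableEq α] (ι : Finset α) (N : α → ℤ) {L K : ℝ} (hL0 : 0 ≤ L)
    (hL : ∀ i ∈ ι, N i ≠ 0 → Real.log |(N i : ℝ)| ≤ L) (hK : 0 < K) :
    ∃ S : Finset ℕ, (S.card : ℝ) ≤ ι.card * L / (K * Real.log 2) ∧
      ∀ p : ℕ, p.Prime → p ∉ S →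
        ((ι.filter fun i => N i ≠ 0 ∧ (p : ℤ) ∣ N i).card : ℝ) < K := by
  classical
  let T : Finset ℕ := ι.biUnion fun i => (N i).natAbs.primeFactors
  let cnt : ℕ → ℕ := fun p => (ι.filter fun i => N i ≠ 0 ∧ (p : ℤ) ∣ N i).card
  refine ⟨T.filter fun p => K ≤ (cnt p : ℝ), ?_, ?_⟩
  · have hl2 : 0 < Real.log 2 := Real.log_pos (by norm_num)
    rw [le_div_iff₀ (by positivity)]
    have h1 : K * ((T.filter fun p => K ≤ (cnt p : ℝ)).card : ℝ) ≤ ∑ p ∈ T, (cnt p : ℝ) := by
      calc K * ((T.filter fun p => K ≤ (cnt p : ℝ)).card : ℝ)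
          = ∑ p ∈ T.filter (fun p => K ≤ (cnt p : ℝ)), K := by
            rw [sum_const, nsmul_eq_mul]; ring
        _ ≤ ∑ p ∈ T.filter (fun p => K ≤ (cnt p : ℝ)), (cnt p : ℝ) :=
            sum_le_sum fun p hp => (mem_filter.1 hp).2
        _ ≤ ∑ p ∈ T, (cnt p : ℝ) :=
            sum_le_sum_of_subset_of_nonneg (filter_subset _ _) fun _ _ _ => by positivity
    have h2 : ∑ p ∈ T, cnt p ≤ ∑ i ∈ ι, (N i).natAbs.primeFactors.card := by
      have h3 : ∀ p ∈ T, cnt p = ∑ i ∈ ι, if N i ≠ 0 ∧ (p : ℤ) ∣ N i then 1 else 0 := by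
        intro p _
        simp only [cnt, card_filter]
      rw [sum_congr rfl h3, sum_comm]
      apply sum_le_sum
      intro i _
      rw [← card_filter]
      apply card_le_card
      intro p hp
      rw [mem_filter] at hp
      obtain ⟨hpT, hne, hdvd⟩ := hp
      rw [mem_biUnion] at hpT
      obtain ⟨j, _, hj⟩ := hpT
      rw [Nat.mem_primeFactors]
      refine ⟨Nat.prime_of_mem_primeFactors hj, ?_, Int.natAbs_ne_zero.2 hne⟩
      exact Int.natCast_dvd.1 hdvd
    have h4 : (∑ p ∈ T, (cnt p : ℝ)) * Real.log 2 ≤ ι.card * L := by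
      have h5 : (∑ p ∈ T, (cnt p : ℝ)) ≤ ∑ i ∈ ι, ((N i).natAbs.primeFactors.card : ℝ) := by
        exact_mod_cast h2
      calc (∑ p ∈ T, (cnt p : ℝ)) * Real.log 2
          ≤ (∑ i ∈ ι, ((N i).natAbs.primeFactors.card : ℝ)) * Real.log 2 :=
            mul_le_mul_of_nonneg_right h5 hl2.le
        _ = ∑ i ∈ ι, ((N i).natAbs.primeFactors.card : ℝ) * Real.log 2 := by rw [sum_mul]
        _ ≤ ∑ i ∈ ι, L := by
            apply sum_le_sum
            intro i hi
            by_cases h : N i = 0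
            · rw [h]; simpa using hL0
            · exact card_primeFactors_le h (hL i hi h)
        _ = ι.card * L := by rw [sum_const, nsmul_eq_mul]
    calc ((T.filter fun p => K ≤ (cnt p : ℝ)).card : ℝ) * (K * Real.log 2)
        = (K * ((T.filter fun p => K ≤ (cnt p : ℝ)).card : ℝ)) * Real.log 2 := by ring
      _ ≤ (∑ p ∈ T, (cnt p : ℝ)) * Real.log 2 := mul_le_mul_of_nonneg_right h1 hl2.le
      _ ≤ _ := h4
  · intro p hp hpS
    by_contra hlt
    push Not at hlt
    apply hpS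
    rw [mem_filter]
    refine ⟨?_, hlt⟩
    have hpos : 0 < (ι.filter fun i => N i ≠ 0 ∧ (p : ℤ) ∣ N i).card := by
      have : (0 : ℝ) < ((ι.filter fun i => N i ≠ 0 ∧ (p : ℤ) ∣ N i).card : ℝ) :=
        lt_of_lt_of_le hK hlt
      exact_mod_cast this
    obtain ⟨i, hi⟩ := card_pos.1 hpos
    rw [mem_filter] at hi
    rw [mem_biUnion]
    refine ⟨i, hi.1, ?_⟩
    rw [Nat.mem_primeFactors]
    exact ⟨hp, Int.natCast_dvd.1 hi.2.2, Int.natAbs_ne_zero.2 hi.2.1⟩

lemma pairs_card (A : Finset ℕ) :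
    2 * (((A ×ˢ A).filter fun x => x.1 < x.2).card : ℝ) = A.card * (A.card - 1) := by
  classical
  have h1 : A.offDiag = ((A ×ˢ A).filter fun x => x.1 < x.2) ∪
      ((A ×ˢ A).filter fun x => x.2 < x.1) := by
    ext x
    simp only [mem_offDiag, mem_union, mem_filter, mem_product]
    constructor
    · rintro ⟨a, b, c⟩
      rcases lt_or_gt_of_ne c with h | h
      · exact Or.inl ⟨⟨a, b⟩, h⟩
      · exact Or.inr ⟨⟨a, b⟩, h⟩
    · rintro (⟨⟨a, b⟩, h⟩ | ⟨⟨a, b⟩, h⟩)
      · exact ⟨a, b, ne_of_lt h⟩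
      · exact ⟨a, b, ne_of_gt h⟩
  have h2 : Disjoint ((A ×ˢ A).filter fun x => x.1 < x.2) ((A ×ˢ A).filter fun x => x.2 < x.1) := by
    rw [disjoint_left]
    intro x hx hy
    exact absurd (mem_filter.1 hx).2 (not_lt_of_gt (mem_filter.1 hy).2)
  have h3 : ((A ×ˢ A).filter fun x => x.2 < x.1).card = ((A ×ˢ A).filter fun x => x.1 < x.2).card := by
    apply card_bij (fun x _ => x.swap)
    · intro x hx
      rw [mem_filter, mem_product] at hx ⊢
      exact ⟨⟨hx.1.2, hx.1.1⟩, hx.2⟩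
    · intro x _ y _ h
      exact Prod.swap_injective h
    · intro x hx
      rw [mem_filter, mem_product] at hx
      exact ⟨x.swap, by rw [mem_filter, mem_product]; exact ⟨⟨hx.1.2, hx.1.1⟩, hx.2⟩, Prod.swap_swap x⟩
  have h4 := offDiag_card A
  rw [h1, card_union_of_disjoint h2, h3] at h4
  have h5 : A.card ≤ A.card * A.card := Nat.le_mul_self _
  have h6 : ((((A ×ˢ A).filter fun x => x.1 < x.2).card + ((A ×ˢ A).filter fun x => x.1 < x.2).card
      : ℕ) : ℝ) = A.card * A.card - A.card := by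
    rw [h4, Nat.cast_sub h5]
    push_cast
    ring
  push_cast at h6
  linarith

end Pool.Agent.Helper27.SP
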