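import Mathlib

/-!
Factorials modulo primes near special points, part 8: two cubic character sums.
-/

set_option autoImplicit false

namespace Pool.Agent.Helper27.SP

open Finset
open scoped Nat

variable {p : ℕ} [Fact p.Prime]

lemma ringChar_ne (hp : p ≠ 2) : ringChar (ZMod p) ≠ 2 := by
  rwa [ZMod.ringChar_zmod_n]

lemma sum_pow_zmod {e : ℕ} (he : 0 < e) :
    ∑ x : ZMod p, x ^ e = if (p - 1) ∣ e then -1 else 0 := by
  classical
  let em : (ZMod p)ˣ ↪ ZMod p := ⟨fun x => x, Units.val_injective⟩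
  have hmap : univ.map em = univ \ {0} := by
    ext x
    simpa only [mem_map, mem_univ, Function.Embedding.coeFn_mk, true_and, mem_sdiff,
      mem_singleton, em] using! isUnit_iff_ne_zero
  calc ∑ x : ZMod p, x ^ e = ∑ x ∈ univ \ {(0 : ZMod p)}, x ^ e := by
        rw [← sum_sdiff ({0} : Finset (ZMod p)).subset_univ, sum_singleton, zero_pow he.ne', add_zero]
    _ = ∑ x : (ZMod p)ˣ, (x ^ e : ZMod p) := by simp [em, ← hmap, univ.sum_map em]
    _ = _ := by rw [FiniteField.sum_pow_units (ZMod p) e, ZMod.card]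

/-- the quadratic character modulo `p` -/
noncomputable def chi (p : ℕ) [Fact p.Prime] : MulChar (ZMod p) ℤ := quadraticChar (ZMod p)

lemma chi_corr (hp : p ≠ 2) (u v : ZMod p) :
    ∑ a : ZMod p, chi p (u + a) * chi p (v + a) = if u = v then (p : ℤ) - 1 else -1 := by
  classical
  split_ifs with h
  · subst h
    have h1 : ∑ a : ZMod p, chi p (u + a) * chi p (u + a) = ∑ b : ZMod p, chi p b * chi p b :=
      Fintype.sum_equiv (Equiv.addLeft u) _ _ fun a => rfl
    rw [h1]
    have h2 : ∀ b : ZMod p, chi p b * chi p b = 1 - if b = 0 then 1 else 0 := by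
      intro b
      unfold chi
      split_ifs with hb
      · rw [hb, MulChar.map_zero]; ring
      · have := quadraticChar_sq_one hb
        rw [sq] at this
        rw [this]; ring
    simp only [h2]
    rw [sum_sub_distrib, sum_const, card_univ, ZMod.card, sum_ite_eq' univ (0 : ZMod p)]
    simp
  · have hw : u - v ≠ 0 := sub_ne_zero.2 h
    have hchi : chi p ≠ 1 := quadraticChar_ne_one (ringChar_ne hp)
    have hinv : (chi p)⁻¹ = chi p := MulChar.IsQuadratic.inv (quadraticChar_isQuadratic (ZMod p))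
    have hJ := jacobiSum_nontrivial_inv hchi
    rw [hinv, jacobiSum] at hJ
    let e : ZMod p ≃ ZMod p := (Equiv.mulLeft₀ (-(u - v)) (neg_ne_zero.2 hw)).trans (Equiv.addLeft (-v))
    have h1 : ∑ a : ZMod p, chi p (u + a) * chi p (v + a) =
        ∑ b : ZMod p, chi p (-1) * (chi p b * chi p (1 - b)) := by
      symm
      refine Fintype.sum_equiv e _ _ fun b => ?_
      have e1 : u + e b = (u - v) * (1 - b) := by simp [e]; ring
      have e2 : v + e b = -1 * ((u - v) * b) := by simp [e]; ring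
      rw [e1, e2, map_mul, map_mul, map_mul]
      have h3 : chi p (u - v) * chi p (u - v) = 1 := by
        have := quadraticChar_sq_one hw
        rwa [sq] at this
      linear_combination (-(chi p (-1) * (chi p b * chi p (1 - b)))) * h3
    rw [h1, ← mul_sum, hJ]
    have h4 : chi p (-1) * chi p (-1) = 1 := by
      have := quadraticChar_sq_one (show (-1 : ZMod p) ≠ 0 by simp)
      rwa [sq] at this
    linear_combination (-1 : ℤ) * h4

lemma card_pow_eq {e : ℕ} (he : 0 < e) (a : ZMod p) :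
    (univ.filter fun x : ZMod p => x ^ e = a).card ≤ e := by
  classical
  have h1 : (univ.filter fun x : ZMod p => x ^ e = a) ⊆ (Polynomial.nthRoots e a).toFinset := by
    intro x hx
    rw [mem_filter] at hx
    rw [Multiset.mem_toFinset, Polynomial.mem_nthRoots he]
    exact hx.2
  exact (card_le_card h1).trans ((Multiset.toFinset_card_le _).trans (Polynomial.card_nthRoots e a))

lemma fiber_sum {e : ℕ} (he : 0 < e) {a : ZMod p} (ha : a ≠ 0) (g : ZMod p → ℤ) (hg : ∀ b, 0 ≤ g b) :
    ∑ s : ZMod p, g (a * s ^ e) ≤ e * ∑ b : ZMod p, g b := by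
  classical
  rw [← sum_fiberwise (univ : Finset (ZMod p)) (fun s => a * s ^ e) (fun s => g (a * s ^ e)), mul_sum]
  apply sum_le_sum
  intro b _
  have h1 : ∑ s ∈ univ.filter (fun s : ZMod p => a * s ^ e = b), g (a * s ^ e)
      = ∑ s ∈ univ.filter (fun s : ZMod p => a * s ^ e = b), g b := by
    apply sum_congr rfl
    intro s hs
    rw [(mem_filter.1 hs).2]
  rw [h1, sum_const, nsmul_eq_mul]
  apply mul_le_mul_of_nonneg_right _ (hg b)
  have h2 : (univ.filter fun s : ZMod p => a * s ^ e = b) = univ.filter fun s : ZMod p => s ^ e = b / a := by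
    ext s
    simp only [mem_filter, mem_univ, true_and]
    rw [eq_div_iff ha, mul_comm]
  rw [h2]
  exact_mod_cast card_pow_eq he _

/-- If `J (a s ^ e) ^ 2 = J a ^ 2` and the square sum is at most `2 p (p - 1)`, then
`J a ^ 2 ≤ 2 e p`. -/
lemma bound_of_sq_sum {e : ℕ} (he : 0 < e) (J : ZMod p → ℤ) {a : ZMod p} (ha : a ≠ 0)
    (hJ : ∀ s : ZMod p, s ≠ 0 → J (a * s ^ e) ^ 2 = J a ^ 2)
    (hs : ∑ b : ZMod p, J b ^ 2 ≤ 2 * p * (p - 1)) : J a ^ 2 ≤ 2 * e * p := by
  classical
  have h1 := fiber_sum he ha (fun b => J b ^ 2) (fun b => sq_nonneg _)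
  have h2 : ((p : ℤ) - 1) * J a ^ 2 ≤ ∑ s : ZMod p, J (a * s ^ e) ^ 2 := by
    have h3 : ∑ s ∈ univ.erase (0 : ZMod p), J (a * s ^ e) ^ 2 = ((p : ℤ) - 1) * J a ^ 2 := by
      rw [sum_congr rfl (g := fun _ => J a ^ 2) (fun s hs => hJ s (ne_of_mem_erase hs)), sum_const,
        card_erase_of_mem (mem_univ _), card_univ, ZMod.card, nsmul_eq_mul,
        Nat.cast_sub (Fact.out : p.Prime).one_le]
      simp
    rw [← h3]
    exact sum_le_sum_of_subset_of_nonneg (erase_subset _ _) fun _ _ _ => sq_nonneg _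
  have hp1 : (0 : ℤ) < (p : ℤ) - 1 := by
    have := (Fact.out : p.Prime).one_lt
    omega
  have h4 : ((p : ℤ) - 1) * J a ^ 2 ≤ ((p : ℤ) - 1) * (2 * e * p) := by
    have h5 : (e : ℤ) * ∑ b : ZMod p, J b ^ 2 ≤ e * (2 * p * (p - 1)) :=
      mul_le_mul_of_nonneg_left hs (by positivity)
    calc ((p : ℤ) - 1) * J a ^ 2 ≤ e * ∑ b : ZMod p, J b ^ 2 := h2.trans h1
      _ ≤ _ := h5
      _ = _ := by ring
  exact le_of_mul_le_mul_left h4 hp1

/-- the sum over `x` of `χ (x ^ 3 + a)` -/
noncomputable def J3 (a : ZMod p) : ℤ := ∑ x : ZMod p, chi p (x ^ 3 + a)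

/-- the sum over `x` of `χ (x) χ (x ^ 2 + a)` -/
noncomputable def J4 (a : ZMod p) : ℤ := ∑ x : ZMod p, chi p x * chi p (x ^ 2 + a)

lemma chi_abs (a : ZMod p) : |chi p a| ≤ 1 := by
  unfold chi
  rcases eq_or_ne a 0 with h | h
  · rw [h, MulChar.map_zero]; simp
  · rcases quadraticChar_dichotomy h with h1 | h1 <;> rw [h1] <;> simp

lemma card_pairs {e : ℕ} (he : 0 < e) :
    ((univ.filter fun z : ZMod p × ZMod p => z.1 ^ e = z.2 ^ e).card : ℤ) ≤ e * (p - 1) + 1 := by
  classical
  have h1 : (univ.filter fun z : ZMod p × ZMod p => z.1 ^ e = z.2 ^ e).card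
      = ∑ y : ZMod p, (univ.filter fun x : ZMod p => x ^ e = y ^ e).card := by
    rw [card_eq_sum_card_fiberwise (f := fun z : ZMod p × ZMod p => z.2) (t := univ)
      (fun _ _ => mem_coe.2 (mem_univ _))]
    apply sum_congr rfl
    intro y _
    apply card_bij (fun z _ => z.1)
    · intro z hz
      rw [mem_filter, mem_filter] at hz
      rw [mem_filter]
      refine ⟨mem_univ _, ?_⟩
      rw [← hz.2]; exact hz.1.2
    · intro z hz z' hz' h
      rw [mem_filter] at hz hz'
      exact Prod.ext h (hz.2.trans hz'.2.symm)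
    · intro x hx
      rw [mem_filter] at hx
      exact ⟨(x, y), by rw [mem_filter, mem_filter]; exact ⟨⟨mem_univ _, hx.2⟩, rfl⟩, rfl⟩
  rw [h1]
  have h2 : ∑ y : ZMod p, (univ.filter fun x : ZMod p => x ^ e = y ^ e).card ≤
      ∑ y ∈ univ.erase (0 : ZMod p), e + 1 := by
    rw [← add_sum_erase univ _ (mem_univ (0 : ZMod p)), add_comm]
    apply add_le_add
    · exact sum_le_sum fun y _ => card_pow_eq he _
    · rw [card_le_one]
      intro x hx y hy
      rw [mem_filter, zero_pow he.ne'] at hx hy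
      rw [(pow_eq_zero_iff he.ne').1 hx.2, (pow_eq_zero_iff he.ne').1 hy.2]
  rw [sum_const, card_erase_of_mem (mem_univ _), card_univ, ZMod.card] at h2
  have h3 : (((p - 1) • e + 1 : ℕ) : ℤ) = e * (p - 1) + 1 := by
    rw [smul_eq_mul]
    push_cast
    rw [Nat.cast_sub (Fact.out : p.Prime).one_le]
    push_cast
    ring
  rw [← h3]
  exact_mod_cast h2

lemma J3_sq (hp : p ≠ 2) {a : ZMod p} (ha : a ≠ 0) : (J3 a) ^ 2 ≤ 6 * p := by
  classical
  have h := bound_of_sq_sum (p := p) (e := 3) (by norm_num) J3 ha ?_ ?_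
  · push_cast at h; linarith
  · intro s hs
    have h1 : J3 (a * s ^ 3) = chi p s * J3 a := by
      unfold J3
      rw [mul_sum]
      symm
      refine Fintype.sum_equiv (Equiv.mulLeft₀ s hs) _ _ fun x => ?_
      have : (Equiv.mulLeft₀ s hs x) ^ 3 + a * s ^ 3 = s * (s ^ 2 * (x ^ 3 + a)) := by
        simp only [Equiv.mulLeft₀_apply]; ring
      rw [this, map_mul, map_mul]
      have h2 : chi p (s ^ 2) = 1 := quadraticChar_sq_one' hs
      rw [h2, one_mul]
    have h3 : chi p s ^ 2 = 1 := quadraticChar_sq_one hs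
    rw [h1, mul_pow, h3, one_mul]
  · have h1 : ∑ b : ZMod p, J3 b ^ 2 = ∑ z : ZMod p × ZMod p,
        ∑ b : ZMod p, chi p (z.1 ^ 3 + b) * chi p (z.2 ^ 3 + b) := by
      rw [sum_comm]
      apply sum_congr rfl
      intro b _
      rw [J3, sq, sum_mul_sum, Fintype.sum_prod_type]
    have h2 : ∀ z : ZMod p × ZMod p, ∑ b : ZMod p, chi p (z.1 ^ 3 + b) * chi p (z.2 ^ 3 + b)
        = (p : ℤ) * (if z.1 ^ 3 = z.2 ^ 3 then 1 else 0) - 1 := by
      intro z
      rw [chi_corr hp]
      split_ifs <;> ring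
    rw [h1, sum_congr rfl fun z _ => h2 z, sum_sub_distrib, ← mul_sum, sum_const, card_univ,
      Fintype.card_prod, ZMod.card]
    have h3 := card_pairs (p := p) (e := 3) (by norm_num)
    have h4 : ∑ z : ZMod p × ZMod p, (if z.1 ^ 3 = z.2 ^ 3 then (1 : ℤ) else 0)
        = ((univ.filter fun z : ZMod p × ZMod p => z.1 ^ 3 = z.2 ^ 3).card : ℤ) := by
      rw [card_filter]; push_cast; rfl
    rw [h4, nsmul_eq_mul]
    have hp0 : (0 : ℤ) ≤ p := by positivity
    push_cast at h3 ⊢
    nlinarith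

lemma J4_sq (hp : p ≠ 2) {a : ZMod p} (ha : a ≠ 0) : (J4 a) ^ 2 ≤ 4 * p := by
  classical
  have h := bound_of_sq_sum (p := p) (e := 2) (by norm_num) J4 ha ?_ ?_
  · push_cast at h; linarith
  · intro s hs
    have h1 : J4 (a * s ^ 2) = chi p s * J4 a := by
      unfold J4
      rw [mul_sum]
      symm
      refine Fintype.sum_equiv (Equiv.mulLeft₀ s hs) _ _ fun x => ?_
      have : (Equiv.mulLeft₀ s hs x) ^ 2 + a * s ^ 2 = s ^ 2 * (x ^ 2 + a) := by
        simp only [Equiv.mulLeft₀_apply]; ring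
      rw [this, map_mul, Equiv.mulLeft₀_apply, map_mul]
      have h2 : chi p (s ^ 2) = 1 := quadraticChar_sq_one' hs
      rw [h2, one_mul]
      ring
    have h3 : chi p s ^ 2 = 1 := quadraticChar_sq_one hs
    rw [h1, mul_pow, h3, one_mul]
  · have h1 : ∑ b : ZMod p, J4 b ^ 2 = ∑ z : ZMod p × ZMod p,
        chi p z.1 * chi p z.2 * ∑ b : ZMod p, chi p (z.1 ^ 2 + b) * chi p (z.2 ^ 2 + b) := by
      simp only [mul_sum]
      rw [sum_comm]
      apply sum_congr rfl
      intro b _
      rw [J4, sq, sum_mul_sum, Fintype.sum_prod_type]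
      apply sum_congr rfl
      intro x _
      apply sum_congr rfl
      intro y _
      ring
    have h2 : ∀ z : ZMod p × ZMod p, chi p z.1 * chi p z.2 *
        ∑ b : ZMod p, chi p (z.1 ^ 2 + b) * chi p (z.2 ^ 2 + b)
        = (p : ℤ) * (if z.1 ^ 2 = z.2 ^ 2 then chi p z.1 * chi p z.2 else 0) -
          chi p z.1 * chi p z.2 := by
      intro z
      rw [chi_corr hp]
      split_ifs <;> ring
    have hz : ∑ z : ZMod p × ZMod p, chi p z.1 * chi p z.2 = 0 := by
      rw [Fintype.sum_prod_type]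
      simp only
      rw [← sum_mul_sum]
      have : ∑ x : ZMod p, chi p x = 0 := quadraticChar_sum_zero (ringChar_ne hp)
      rw [this, zero_mul]
    rw [h1, sum_congr rfl fun z _ => h2 z, sum_sub_distrib, ← mul_sum, hz, sub_zero]
    have h3 := card_pairs (p := p) (e := 2) (by norm_num)
    have h4 : ∑ z : ZMod p × ZMod p, (if z.1 ^ 2 = z.2 ^ 2 then chi p z.1 * chi p z.2 else 0)
        ≤ 2 * ((p : ℤ) - 1) := by
      have h5 : ∀ z : ZMod p × ZMod p, (if z.1 ^ 2 = z.2 ^ 2 then chi p z.1 * chi p z.2 else 0)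
          ≤ (if z.1 ^ 2 = z.2 ^ 2 then (1 : ℤ) else 0) - (if z = (0, 0) then 1 else 0) := by
        intro z
        split_ifs with h6 h7 h7
        · rw [h7]; simp [MulChar.map_zero]
        · have h8 := abs_le.1 (chi_abs z.1)
          have h9 := abs_le.1 (chi_abs z.2)
          have := abs_le.1 (abs_mul (chi p z.1) (chi p z.2) ▸
            mul_le_one₀ (chi_abs z.1) (abs_nonneg _) (chi_abs z.2))
          linarith
        · exfalso; apply h6; rw [h7]
        · simp
      refine (sum_le_sum fun z _ => h5 z).trans ?_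
      rw [sum_sub_distrib, sum_ite_eq' univ ((0 : ZMod p), (0 : ZMod p)), if_pos (mem_univ _)]
      have h10 : ∑ z : ZMod p × ZMod p, (if z.1 ^ 2 = z.2 ^ 2 then (1 : ℤ) else 0)
          = ((univ.filter fun z : ZMod p × ZMod p => z.1 ^ 2 = z.2 ^ 2).card : ℤ) := by
        rw [card_filter]; push_cast; rfl
      rw [h10]
      push_cast at h3
      linarith
    have hp0 : (0 : ℤ) ≤ p := by positivity
    nlinarith

end Pool.Agent.Helper27.SP
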