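import Pool.Agent.Helper27.SP.S6
import Pool.Agent.Helper27.SP.S8

/-!
Factorials modulo primes near special points, part 9: the two character sums modulo `p` and the
values `((p - 1) / 4)!` and `((p - 1) / 3)!`.
-/

set_option autoImplicit false

namespace Pool.Agent.Helper27.SP

open Finset
open scoped Nat

variable {p : ℕ} [Fact p.Prime]

lemma chi_cast (hp : p ≠ 2) (a : ZMod p) : ((chi p a : ℤ) : ZMod p) = a ^ (p / 2) := by
  have := quadraticChar_eq_pow_of_char_ne_two' (ringChar_ne hp) a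
  rw [ZMod.card] at this
  exact this

lemma choose_fact (m : ℕ) : (((2 * m).choose m : ℕ) : ZMod p) * ((m ! : ℕ) : ZMod p) ^ 2 =
    (((2 * m)! : ℕ) : ZMod p) := by
  have h := Nat.choose_mul_factorial_mul_factorial (show m ≤ 2 * m by omega)
  have h2 : 2 * m - m = m := by omega
  rw [h2] at h
  have h3 := congrArg (fun n : ℕ => (n : ZMod p)) h
  push_cast at h3
  rw [sq, ← mul_assoc]
  exact h3

lemma J4_mod {m : ℕ} (hm : 1 ≤ m) (hp : p = 4 * m + 1) :
    ((J4 (-1 : ZMod p) : ℤ) : ZMod p) = -((-1) ^ m * (((2 * m).choose m : ℕ) : ZMod p)) := by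
  have hp2 : p ≠ 2 := by omega
  have hhalf : p / 2 = 2 * m := by omega
  unfold J4
  push_cast
  have h1 : ∀ x : ZMod p, ((chi p x : ℤ) : ZMod p) * ((chi p (x ^ 2 + -1) : ℤ) : ZMod p)
      = ∑ i ∈ range (2 * m + 1), (-1) ^ (2 * m - i) * (((2 * m).choose i : ℕ) : ZMod p) *
        x ^ (2 * m + 2 * i) := by
    intro x
    rw [chi_cast hp2, chi_cast hp2, hhalf, add_pow, mul_sum]
    apply sum_congr rfl
    intro i _
    rw [← pow_mul, pow_add]
    ring
  rw [sum_congr rfl fun x _ => h1 x, sum_comm]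
  rw [sum_eq_single m]
  · rw [← mul_sum, sum_pow_zmod (by omega), if_pos]
    · have : 2 * m - m = m := by omega
      rw [this]
      ring
    · exact ⟨1, by omega⟩
  · intro i hi hne
    rw [mem_range] at hi
    rw [← mul_sum, sum_pow_zmod (by omega), if_neg, mul_zero]
    rintro ⟨c, hc⟩
    have h2 : p - 1 = 4 * m := by omega
    rw [h2] at hc
    have hc1 : c = 1 := by
      rcases Nat.lt_or_ge c 1 with h | h
      · have : c = 0 := by omega
        rw [this] at hc; omega
      · rcases Nat.lt_or_ge c 2 with h' | h'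
        · omega
        · exfalso
          have : 4 * m * 2 ≤ 4 * m * c := Nat.mul_le_mul_left _ h'
          omega
    rw [hc1] at hc
    omega
  · intro h
    exact absurd (mem_range.2 (by omega)) h

lemma J4_fact {m : ℕ} (hm : 1 ≤ m) (hp : p = 4 * m + 1) :
    ((J4 (-1 : ZMod p) : ℤ) : ZMod p) ^ 4 * ((m ! : ℕ) : ZMod p) ^ 8 = 1 := by
  have h1 := J4_mod hm hp
  have h2 := choose_fact (p := p) m
  have h3 := reflect_sq (p := p) (n := 2 * m) (k := 2 * m) (by omega)
  have h4 : ((-1 : ZMod p) ^ m) ^ 4 = 1 := by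
    rw [← pow_mul, mul_comm, pow_mul]; norm_num
  rw [h1]
  calc (-((-1) ^ m * (((2 * m).choose m : ℕ) : ZMod p))) ^ 4 * ((m ! : ℕ) : ZMod p) ^ 8
      = ((-1 : ZMod p) ^ m) ^ 4 * ((((2 * m).choose m : ℕ) : ZMod p) * ((m ! : ℕ) : ZMod p) ^ 2) ^ 4 := by
        ring
    _ = (((2 * m)! : ℕ) : ZMod p) ^ 2 * (((2 * m)! : ℕ) : ZMod p) ^ 2 := by rw [h2, h4]; ring
    _ = 1 := h3

lemma ind_eq (y v : ZMod p) : (if y = v then (1 : ZMod p) else 0) =
    1 - ∑ i ∈ range p, y ^ i * v ^ (p - 1 - i) := by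
  have hp := (Fact.out : p.Prime)
  split_ifs with h
  · subst h
    have h1 : ∀ i ∈ range p, y ^ i * y ^ (p - 1 - i) = y ^ (p - 1) := by
      intro i hi
      rw [mem_range] at hi
      rw [← pow_add]
      congr 1
      omega
    rw [sum_congr rfl h1, sum_const, card_range, nsmul_eq_mul, ZMod.natCast_self, zero_mul, sub_zero]
  · have h1 := geom_sum₂_mul y v p
    rw [ZMod.pow_card, ZMod.pow_card] at h1
    have h2 : y - v ≠ 0 := sub_ne_zero.2 h
    have h3 := mul_right_cancel₀ h2 (h1.trans (one_mul _).symm)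
    rw [h3, sub_self]

/-- the number of cube roots -/
noncomputable def Nc (v : ZMod p) : ℕ := (univ.filter fun x : ZMod p => x ^ 3 = v).card

lemma Nc_mod {m : ℕ} (hm : 1 ≤ m) (hp : p = 3 * m + 1) (v : ZMod p) :
    ((Nc v : ℕ) : ZMod p) = 1 + v ^ m + v ^ (2 * m) := by
  have h0 : ((Nc v : ℕ) : ZMod p) = ∑ x : ZMod p, (if x ^ 3 = v then (1 : ZMod p) else 0) := by
    unfold Nc
    rw [card_filter]
    push_cast
    rfl
  rw [h0]
  simp only [ind_eq]
  rw [sum_sub_distrib, sum_comm]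
  have h1 : ∑ x : ZMod p, (1 : ZMod p) = 0 := by
    rw [sum_const, card_univ, ZMod.card, nsmul_eq_mul, ZMod.natCast_self, zero_mul]
  have h2 : ∀ i ∈ range p, ∑ x : ZMod p, (x ^ 3) ^ i * v ^ (p - 1 - i) =
      if i = m ∨ i = 2 * m ∨ i = 3 * m then -v ^ (p - 1 - i) else 0 := by
    intro i hi
    rw [mem_range] at hi
    rw [← sum_mul]
    simp only [← pow_mul]
    rcases Nat.eq_zero_or_pos i with hi0 | hi0
    · subst hi0
      rw [if_neg (by omega)]
      simp only [mul_zero, pow_zero, h1, zero_mul]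
    · rw [sum_pow_zmod (by omega)]
      by_cases hc : i = m ∨ i = 2 * m ∨ i = 3 * m
      · rw [if_pos, if_pos hc]
        · ring
        · rcases hc with h | h | h
          · exact ⟨1, by omega⟩
          · exact ⟨2, by omega⟩
          · exact ⟨3, by omega⟩
      · rw [if_neg, if_neg hc, zero_mul]
        rintro ⟨c, hcc⟩
        apply hc
        have h3 : p - 1 = 3 * m := by omega
        rw [h3] at hcc
        have h4 : i = m * c := by
          have : 3 * i = 3 * (m * c) := by rw [hcc]; ring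
          omega
        have h5 : c ≤ 3 := by
          by_contra h6
          push Not at h6
          have : m * 4 ≤ m * c := Nat.mul_le_mul_left _ h6
          omega
        interval_cases c <;> omega
  rw [h1, sum_congr rfl h2, ← sum_filter]
  have h3 : (range p).filter (fun i => i = m ∨ i = 2 * m ∨ i = 3 * m) = {m, 2 * m, 3 * m} := by
    ext i
    simp only [mem_filter, mem_range, mem_insert, mem_singleton]
    omega
  rw [h3, sum_insert, sum_insert, sum_singleton]
  · have e1 : p - 1 - m = 2 * m := by omega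
    have e2 : p - 1 - 2 * m = m := by omega
    have e3 : p - 1 - 3 * m = 0 := by omega
    rw [e1, e2, e3]
    ring
  · simp only [mem_singleton]; omega
  · simp only [mem_insert, mem_singleton]; omega

lemma quad_sum {k : ℕ} (hk : 1 ≤ k) : ∑ t : ZMod p, (t - t ^ 2) ^ k =
    ∑ j ∈ range (k + 1), (-1) ^ (k - j) * ((k.choose j : ℕ) : ZMod p) *
      (if (p - 1) ∣ 2 * k - j then -1 else 0) := by
  have h1 : ∀ t : ZMod p, (t - t ^ 2) ^ k = ∑ j ∈ range (k + 1),
      (-1) ^ (k - j) * ((k.choose j : ℕ) : ZMod p) * t ^ (2 * k - j) := by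
    intro t
    rw [sub_eq_add_neg, add_pow]
    apply sum_congr rfl
    intro j hj
    rw [mem_range] at hj
    have h2 : 2 * k - j = j + 2 * (k - j) := by omega
    rw [h2, pow_add, pow_mul, neg_pow (t ^ 2)]
    ring
  rw [sum_congr rfl fun t _ => h1 t, sum_comm]
  apply sum_congr rfl
  intro j hj
  rw [mem_range] at hj
  rw [← mul_sum, sum_pow_zmod (by omega)]

lemma T_mod {m : ℕ} (hm : 1 ≤ m) (hp : p = 3 * m + 1) :
    ((∑ t : ZMod p, Nc (t - t ^ 2) : ℕ) : ZMod p) =
      -((-1) ^ m * (((2 * m).choose m : ℕ) : ZMod p)) := by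
  push_cast
  simp only [Nc_mod hm hp]
  have h1 : ∑ x : ZMod p, (1 : ZMod p) = 0 := by
    rw [sum_const, card_univ, ZMod.card, nsmul_eq_mul, ZMod.natCast_self, zero_mul]
  have hp3 : p - 1 = 3 * m := by omega
  rw [sum_add_distrib, sum_add_distrib, h1, quad_sum hm, quad_sum (show 1 ≤ 2 * m by omega)]
  have h2 : ∑ j ∈ range (m + 1), (-1) ^ (m - j) * ((m.choose j : ℕ) : ZMod p) *
      (if (p - 1) ∣ 2 * m - j then -1 else 0) = 0 := by
    apply sum_eq_zero
    intro j hj
    rw [mem_range] at hj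
    rw [if_neg, mul_zero]
    rintro ⟨c, hc⟩
    rw [hp3] at hc
    rcases Nat.eq_zero_or_pos c with h | h
    · rw [h] at hc; omega
    · have : 3 * m * 1 ≤ 3 * m * c := Nat.mul_le_mul_left _ h
      omega
  rw [h2, sum_eq_single m]
  · have : 2 * m - m = m := by omega
    rw [if_pos ⟨1, by omega⟩, this]
    ring
  · intro j hj hne
    rw [mem_range] at hj
    rw [if_neg, mul_zero]
    rintro ⟨c, hc⟩
    rw [hp3] at hc
    rcases Nat.lt_or_ge c 1 with h | h
    · have : c = 0 := by omega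
      rw [this] at hc; omega
    · rcases Nat.lt_or_ge c 2 with h' | h'
      · have : c = 1 := by omega
        rw [this] at hc; omega
      · have : 3 * m * 2 ≤ 3 * m * c := Nat.mul_le_mul_left _ h'
        omega
  · intro h
    exact absurd (mem_range.2 (by omega)) h

lemma T_int (hp2 : p ≠ 2) : ((∑ t : ZMod p, Nc (t - t ^ 2) : ℕ) : ℤ) = p + J3 ((1 : ZMod p) / 4) := by
  classical
  have h2ne : (2 : ZMod p) ≠ 0 := by
    intro h
    have h1 : ((2 : ℕ) : ZMod p) = 0 := by exact_mod_cast h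
    rw [ZMod.natCast_eq_zero_iff] at h1
    exact hp2 ((Nat.prime_dvd_prime_iff_eq Fact.out Nat.prime_two).1 h1)
  have h1 : ∑ t : ZMod p, Nc (t - t ^ 2) =
      ∑ x : ZMod p, (univ.filter fun t : ZMod p => x ^ 3 = t - t ^ 2).card := by
    unfold Nc
    simp only [card_filter]
    rw [sum_comm]
  rw [h1]
  push_cast
  have h2 : ∀ x : ZMod p, ((univ.filter fun t : ZMod p => x ^ 3 = t - t ^ 2).card : ℤ)
      = chi p (1 - 4 * x ^ 3) + 1 := by
    intro x
    have h3 := quadraticChar_card_sqrts (ringChar_ne hp2) (1 - 4 * x ^ 3)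
    unfold chi
    rw [← h3]
    congr 1
    apply card_bij (fun t _ => 2 * t - 1)
    · intro t ht
      rw [mem_filter] at ht
      simp only [Set.toFinset_ofPred, mem_filter_univ]
      rw [ht.2]; ring
    · intro t _ t' _ h
      have : 2 * t = 2 * t' := by linear_combination h
      exact mul_left_cancel₀ h2ne this
    · intro s hs
      simp only [Set.toFinset_ofPred, mem_filter_univ] at hs
      refine ⟨(s + 1) / 2, ?_, ?_⟩
      · rw [mem_filter]
        refine ⟨mem_univ _, ?_⟩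
        have h4 : (4 : ZMod p) ≠ 0 := by
          have : (4 : ZMod p) = 2 * 2 := by norm_num
          rw [this]; exact mul_ne_zero h2ne h2ne
        field_simp
        linear_combination hs
      · field_simp
        ring
  rw [sum_congr rfl fun x _ => h2 x, sum_add_distrib, sum_const, card_univ, ZMod.card, nsmul_eq_mul,
    mul_one, add_comm]
  congr 1
  unfold J3
  refine Fintype.sum_equiv (Equiv.neg (ZMod p)) _ _ fun x => ?_
  have h4 : (4 : ZMod p) ≠ 0 := by
    have : (4 : ZMod p) = 2 * 2 := by norm_num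
    rw [this]; exact mul_ne_zero h2ne h2ne
  have h5 : (1 : ZMod p) - 4 * x ^ 3 = 2 ^ 2 * ((Equiv.neg (ZMod p) x) ^ 3 + 1 / 4) := by
    simp only [Equiv.neg_apply]
    field_simp
    ring
  rw [h5, map_mul]
  have h6 : chi p (2 ^ 2) = 1 := quadraticChar_sq_one' h2ne
  rw [h6, one_mul]

lemma J3_fact {m : ℕ} (hm : 1 ≤ m) (hp : p = 3 * m + 1) :
    ((J3 ((1 : ZMod p) / 4) : ℤ) : ZMod p) ^ 2 * ((m ! : ℕ) : ZMod p) ^ 6 = 1 := by
  have hp2 : p ≠ 2 := by omega
  have h1 := T_mod hm hp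
  have h2 : ((∑ t : ZMod p, Nc (t - t ^ 2) : ℕ) : ZMod p) =
      ((J3 ((1 : ZMod p) / 4) : ℤ) : ZMod p) := by
    have h3 : (((∑ t : ZMod p, Nc (t - t ^ 2) : ℕ) : ℤ) : ZMod p) =
        (((p : ℤ) + J3 ((1 : ZMod p) / 4) : ℤ) : ZMod p) := by rw [T_int hp2]
    rw [Int.cast_natCast] at h3
    rw [h3]
    push_cast
    rw [ZMod.natCast_self, zero_add]
  rw [h1] at h2
  have h3 := choose_fact (p := p) m
  have h4 := reflect_sq (p := p) (n := 2 * m) (k := m) (by omega)
  have h5 : ((-1 : ZMod p) ^ m) ^ 2 = 1 := by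
    rw [← pow_mul, mul_comm, pow_mul]; norm_num
  rw [← h2]
  calc (-((-1) ^ m * (((2 * m).choose m : ℕ) : ZMod p))) ^ 2 * ((m ! : ℕ) : ZMod p) ^ 6
      = ((-1 : ZMod p) ^ m) ^ 2 * ((((2 * m).choose m : ℕ) : ZMod p) * ((m ! : ℕ) : ZMod p) ^ 2) ^ 2 *
        ((m ! : ℕ) : ZMod p) ^ 2 := by ring
    _ = (((2 * m)! : ℕ) : ZMod p) ^ 2 * ((m ! : ℕ) : ZMod p) ^ 2 := by rw [h3, h5]; ring
    _ = 1 := h4

end Pool.Agent.Helper27.SP
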