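import Pool.Agent.Helper27.SP.S7
import Pool.Agent.Helper27.SP.S9

/-!
Factorials modulo primes near special points, part 10: windows around the multiples of
`(p - 1) / 3` and `(p - 1) / 4`, the integers.
-/

set_option autoImplicit false

namespace Pool.Agent.Helper27.SP

open Finset
open scoped Nat

/-- product of the first `k` numbers `d j + e` -/
def Pr (d e k : ℕ) : ℕ := ∏ j ∈ range k, (d * j + e)

lemma Pr_succ (d e k : ℕ) : Pr d e (k + 1) = Pr d e k * (d * k + e) := by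
  unfold Pr; rw [prod_range_succ]

lemma shift_up {p : ℕ} [Fact p.Prime] {d m : ℕ} (hd : 1 ≤ d) (hp : p = d * m + 1) (k : ℕ) :
    (d : ZMod p) ^ k * (((m + k)! : ℕ) : ZMod p) = ((m ! : ℕ) : ZMod p) * ((Pr d (d - 1) k : ℕ) : ZMod p) := by
  obtain ⟨e, rfl⟩ := Nat.exists_eq_add_of_le' hd
  have h0 : (((e + 1) * m + 1 : ℕ) : ZMod p) = 0 := by rw [← hp]; exact ZMod.natCast_self p
  induction k with
  | zero => simp [Pr]
  | succ k ih =>
    rw [Pr_succ, ← add_assoc, Nat.factorial_succ]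
    simp only [Nat.add_sub_cancel] at ih ⊢
    push_cast at h0 ih ⊢
    linear_combination (((e : ZMod p) + 1) * ((m : ZMod p) + k + 1)) * ih +
      ((m ! : ℕ) : ZMod p) * ((Pr (e + 1) e k : ℕ) : ZMod p) * h0

lemma shift_down {p : ℕ} [Fact p.Prime] {d m : ℕ} (hp : p = d * m + 1) (k : ℕ) (hk : k ≤ m) :
    (d : ZMod p) ^ k * ((m ! : ℕ) : ZMod p) =
      (((m - k)! : ℕ) : ZMod p) * (-1) ^ k * ((Pr d 1 k : ℕ) : ZMod p) := by
  have h0 : ((d * m + 1 : ℕ) : ZMod p) = 0 := by rw [← hp]; exact ZMod.natCast_self p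
  induction k with
  | zero => simp [Pr]
  | succ k ih =>
    have ih' := ih (by omega)
    obtain ⟨c, hc⟩ := Nat.exists_eq_add_of_le hk
    have h1 : m - k = c + 1 := by omega
    have h2 : m - (k + 1) = c := by omega
    rw [h1, Nat.factorial_succ] at ih'
    rw [h2, Pr_succ]
    have h3 : (m : ZMod p) = k + 1 + c := by
      have := congrArg (fun n : ℕ => (n : ZMod p)) hc
      push_cast at this
      exact this
    push_cast at h0 ih' ⊢
    rw [h3] at h0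
    linear_combination (d : ZMod p) * ih' +
      ((c ! : ℕ) : ZMod p) * (-1) ^ k * ((Pr d 1 k : ℕ) : ZMod p) * h0

/-- the integers attached to the windows -/
def Nz (d c : ℕ) (s : Bool) (k : ℕ) : ℤ :=
  if s then (c : ℤ) ^ (2 * (d - 2)) * (d : ℤ) ^ (2 * d * k) - (Pr d (d - 1) k : ℤ) ^ (2 * d)
  else (d : ℤ) ^ (2 * d * k) - (c : ℤ) ^ (2 * (d - 2)) * (Pr d 1 k : ℤ) ^ (2 * d)

lemma Nz_dvd_up {p : ℕ} [Fact p.Prime] {d m c k : ℕ} (hd : 1 ≤ d) (hp : p = d * m + 1)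
    (hc : (c : ZMod p) ^ (2 * (d - 2)) * ((m ! : ℕ) : ZMod p) ^ (2 * d) = 1)
    (hn : (((m + k)! : ℕ) : ZMod p) ^ 2 = 1) : (p : ℤ) ∣ Nz d c true k := by
  rw [← ZMod.intCast_zmod_eq_zero_iff_dvd, Nz, if_pos rfl]
  have h1 := shift_up hd hp k
  have h2 : ((d : ZMod p) ^ k * (((m + k)! : ℕ) : ZMod p)) ^ (2 * d) =
      (((m ! : ℕ) : ZMod p) * ((Pr d (d - 1) k : ℕ) : ZMod p)) ^ (2 * d) := by rw [h1]
  have h3 : (((m + k)! : ℕ) : ZMod p) ^ (2 * d) = 1 := by rw [pow_mul, hn, one_pow]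
  rw [mul_pow, mul_pow, h3, mul_one, ← pow_mul, mul_comm k] at h2
  push_cast
  rw [h2]
  calc (c : ZMod p) ^ (2 * (d - 2)) * (((m ! : ℕ) : ZMod p) ^ (2 * d) *
        ((Pr d (d - 1) k : ℕ) : ZMod p) ^ (2 * d)) - ((Pr d (d - 1) k : ℕ) : ZMod p) ^ (2 * d)
      = ((c : ZMod p) ^ (2 * (d - 2)) * ((m ! : ℕ) : ZMod p) ^ (2 * d) - 1) *
        ((Pr d (d - 1) k : ℕ) : ZMod p) ^ (2 * d) := by ring
    _ = 0 := by rw [hc, sub_self, zero_mul]

lemma Nz_dvd_down {p : ℕ} [Fact p.Prime] {d m c k : ℕ} (hp : p = d * m + 1) (hk : k ≤ m)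
    (hc : (c : ZMod p) ^ (2 * (d - 2)) * ((m ! : ℕ) : ZMod p) ^ (2 * d) = 1)
    (hn : (((m - k)! : ℕ) : ZMod p) ^ 2 = 1) : (p : ℤ) ∣ Nz d c false k := by
  rw [← ZMod.intCast_zmod_eq_zero_iff_dvd, Nz]
  simp only [Bool.false_eq_true, if_false]
  have h1 := shift_down hp k hk
  have h2 : ((d : ZMod p) ^ k * ((m ! : ℕ) : ZMod p)) ^ (2 * d) =
      ((((m - k)! : ℕ) : ZMod p) * (-1) ^ k * ((Pr d 1 k : ℕ) : ZMod p)) ^ (2 * d) := by rw [h1]
  have h3 : (((m - k)! : ℕ) : ZMod p) ^ (2 * d) = 1 := by rw [pow_mul, hn, one_pow]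
  have h4 : ((-1 : ZMod p) ^ k) ^ (2 * d) = 1 := by
    rw [← pow_mul, mul_comm k, mul_assoc, pow_mul]; simp
  rw [mul_pow, mul_pow, mul_pow, h3, h4, one_mul, one_mul, ← pow_mul, mul_comm k] at h2
  push_cast
  rw [← h2]
  calc (d : ZMod p) ^ (2 * d * k) - (c : ZMod p) ^ (2 * (d - 2)) * ((d : ZMod p) ^ (2 * d * k) *
        ((m ! : ℕ) : ZMod p) ^ (2 * d))
      = (d : ZMod p) ^ (2 * d * k) * (1 - (c : ZMod p) ^ (2 * (d - 2)) *
        ((m ! : ℕ) : ZMod p) ^ (2 * d)) := by ring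
    _ = 0 := by rw [hc, sub_self, mul_zero]

lemma Pr_coprime {d e : ℕ} (h : Nat.Coprime e d) (k : ℕ) : Nat.Coprime (Pr d e k) d := by
  unfold Pr
  apply Nat.Coprime.prod_left
  intro j _
  simpa using h

lemma Nz_ne {d c k : ℕ} (hd : 2 ≤ d) (s : Bool) (hk : 2 ≤ k) : Nz d c s k ≠ 0 := by
  unfold Nz
  cases s with
  | true =>
    rw [if_pos rfl]
    intro h
    rw [sub_eq_zero] at h
    have h1 : (c ^ (2 * (d - 2))) * d ^ (2 * d * k) = (Pr d (d - 1) k) ^ (2 * d) := by exact_mod_cast h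
    have h2 : Nat.Coprime ((Pr d (d - 1) k) ^ (2 * d)) d := by
      apply Nat.Coprime.pow_left
      apply Pr_coprime
      obtain ⟨e, he⟩ := Nat.exists_eq_add_of_le' (show 1 ≤ d by omega)
      rw [he]
      simp
    rw [← h1] at h2
    have h3 : d ∣ c ^ (2 * (d - 2)) * d ^ (2 * d * k) := by
      apply Dvd.dvd.mul_left
      apply dvd_pow_self
      positivity
    have h4 := Nat.Coprime.eq_one_of_dvd (Nat.Coprime.symm h2) h3
    omega
  | false =>
    simp only [Bool.false_eq_true, if_false]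
    intro h
    rw [sub_eq_zero] at h
    have h1 : d ^ (2 * d * k) = (c ^ (2 * (d - 2))) * (Pr d 1 k) ^ (2 * d) := by exact_mod_cast h
    have h2 : (d + 1) ∣ Pr d 1 k := by
      unfold Pr
      have := dvd_prod_of_mem (fun j => d * j + 1) (mem_range.2 (show 1 < k by omega))
      simpa using this
    have h3 : (d + 1) ∣ d ^ (2 * d * k) := by
      rw [h1]
      apply Dvd.dvd.mul_left
      exact dvd_pow h2 (by omega)
    have h4 : Nat.Coprime (d + 1) (d ^ (2 * d * k)) := by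
      apply Nat.Coprime.pow_right
      simp
    have h5 := Nat.Coprime.eq_one_of_dvd h4 h3
    omega

lemma Pr_le {d e k y : ℕ} (he : e < d) (hd : d ≤ 4) (hk : k ≤ y) (hy : 1 ≤ y) :
    Pr d e k ≤ (4 * y) ^ y := by
  unfold Pr
  calc ∏ j ∈ range k, (d * j + e) ≤ ∏ j ∈ range k, (4 * y) := by
        apply prod_le_prod' fun j hj => ?_
        rw [mem_range] at hj
        have h1 : d * j + e ≤ d * (j + 1) := by rw [mul_add]; omega
        have h2 : d * (j + 1) ≤ 4 * y := Nat.mul_le_mul hd (by omega)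
        omega
    _ = (4 * y) ^ k := by rw [prod_const, card_range]
    _ ≤ (4 * y) ^ y := Nat.pow_le_pow_right (by omega) hk

lemma Nz_log {d c k x y : ℕ} (hd : d = 3 ∨ d = 4) (s : Bool) (hk : 2 ≤ k) (hky : k ≤ y)
    (hc : c ^ 2 ≤ 6 * x) (hx : 1 ≤ x) :
    Real.log |((Nz d c s k : ℤ) : ℝ)| ≤ 10 * y * Real.log (24 * x * y) := by
  have hy : 1 ≤ y := by omega
  have hne := Nz_ne (d := d) (c := c) (k := k) (by omega) s hk
  have h0 : (0 : ℝ) < |((Nz d c s k : ℤ) : ℝ)| := abs_pos.2 (by exact_mod_cast hne)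
  set M : ℕ := (6 * x) ^ 2 * (4 * y) ^ (8 * y) with hM
  have hc2 : c ^ (2 * (d - 2)) ≤ (6 * x) ^ 2 := by
    rw [pow_mul]
    calc (c ^ 2) ^ (d - 2) ≤ (6 * x) ^ (d - 2) := Nat.pow_le_pow_left hc _
      _ ≤ (6 * x) ^ 2 := Nat.pow_le_pow_right (by omega) (by omega)
  have hd2 : d ^ (2 * d * k) ≤ (4 * y) ^ (8 * y) := by
    calc d ^ (2 * d * k) ≤ (4 * y) ^ (2 * d * k) := Nat.pow_le_pow_left (by omega) _
      _ ≤ (4 * y) ^ (8 * y) := Nat.pow_le_pow_right (by omega) (by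
          have : 2 * d ≤ 8 := by omega
          exact Nat.mul_le_mul this hky)
  have hP : ∀ e, e < d → Pr d e k ^ (2 * d) ≤ (4 * y) ^ (8 * y) := by
    intro e he
    calc Pr d e k ^ (2 * d) ≤ ((4 * y) ^ y) ^ (2 * d) :=
          Nat.pow_le_pow_left (Pr_le he (by omega) hky hy) _
      _ = (4 * y) ^ (y * (2 * d)) := by rw [← pow_mul]
      _ ≤ (4 * y) ^ (8 * y) := Nat.pow_le_pow_right (by omega) (by
          have : 2 * d ≤ 8 := by omega
          rw [mul_comm]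
          exact Nat.mul_le_mul_right _ this)
  have h1x : 1 ≤ (6 * x) ^ 2 := Nat.one_le_pow _ _ (by omega)
  have hle : |Nz d c s k| ≤ (M : ℤ) := by
    unfold Nz
    cases s with
    | true =>
      rw [if_pos rfl]
      have e1 : c ^ (2 * (d - 2)) * d ^ (2 * d * k) ≤ M := Nat.mul_le_mul hc2 hd2
      have e2 : Pr d (d - 1) k ^ (2 * d) ≤ M := by
        calc _ ≤ 1 * (4 * y) ^ (8 * y) := by rw [one_mul]; exact hP _ (by omega)
          _ ≤ M := Nat.mul_le_mul_right _ h1x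
      have e3 : (c : ℤ) ^ (2 * (d - 2)) * (d : ℤ) ^ (2 * d * k) ≤ M := by exact_mod_cast e1
      have e4 : (Pr d (d - 1) k : ℤ) ^ (2 * d) ≤ M := by exact_mod_cast e2
      have e5 : 0 ≤ (c : ℤ) ^ (2 * (d - 2)) * (d : ℤ) ^ (2 * d * k) := by positivity
      have e6 : 0 ≤ (Pr d (d - 1) k : ℤ) ^ (2 * d) := by positivity
      rw [abs_le]
      constructor <;> linarith
    | false =>
      simp only [Bool.false_eq_true, if_false]
      have e1 : c ^ (2 * (d - 2)) * Pr d 1 k ^ (2 * d) ≤ M := Nat.mul_le_mul hc2 (hP _ (by omega))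
      have e2 : d ^ (2 * d * k) ≤ M := by
        calc _ ≤ 1 * (4 * y) ^ (8 * y) := by rw [one_mul]; exact hd2
          _ ≤ M := Nat.mul_le_mul_right _ h1x
      have e3 : (c : ℤ) ^ (2 * (d - 2)) * (Pr d 1 k : ℤ) ^ (2 * d) ≤ M := by exact_mod_cast e1
      have e4 : (d : ℤ) ^ (2 * d * k) ≤ M := by exact_mod_cast e2
      have e5 : 0 ≤ (c : ℤ) ^ (2 * (d - 2)) * (Pr d 1 k : ℤ) ^ (2 * d) := by positivity
      have e6 : 0 ≤ (d : ℤ) ^ (2 * d * k) := by positivity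
      rw [abs_le]
      constructor <;> linarith
  have hle' : |((Nz d c s k : ℤ) : ℝ)| ≤ (M : ℝ) := by
    have : ((|Nz d c s k| : ℤ) : ℝ) ≤ ((M : ℤ) : ℝ) := by exact_mod_cast hle
    rw [Int.cast_abs] at this
    simpa using this
  have h2 := Real.log_le_log h0 hle'
  have hx1 : (1 : ℝ) ≤ x := by exact_mod_cast hx
  have hy1 : (1 : ℝ) ≤ y := by exact_mod_cast hy
  have h3 : Real.log (M : ℝ) = 2 * Real.log (6 * x) + 8 * y * Real.log (4 * y) := by
    rw [hM]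
    push_cast
    rw [Real.log_mul (by positivity) (by positivity), Real.log_pow, Real.log_pow]
    push_cast
    ring
  have hxy : (1 : ℝ) ≤ x * y := by nlinarith
  have h4 : Real.log (6 * x) ≤ Real.log (24 * x * y) := Real.log_le_log (by positivity) (by nlinarith)
  have h5 : Real.log (4 * y) ≤ Real.log (24 * x * y) := Real.log_le_log (by positivity) (by nlinarith)
  have h6 : 0 ≤ Real.log (24 * x * y) := Real.log_nonneg (by nlinarith)
  rw [h3] at h2
  refine h2.trans ?_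
  have h7 : 8 * (y : ℝ) * Real.log (4 * y) ≤ 8 * y * Real.log (24 * x * y) :=
    mul_le_mul_of_nonneg_left h5 (by positivity)
  nlinarith

end Pool.Agent.Helper27.SP
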