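import Pool.Agent.Helper27.SP.S1

/-!
Factorials modulo primes near special points, part 2: rational multiples of the prime.
-/

set_option autoImplicit false

namespace Pool.Agent.Helper27.SP

open Finset
open scoped Nat

/-- The integer attached to `n ≡ k - r / b` and the gap `a`. -/
def N1 (b r : ℕ) (k : ℤ) (a : ℕ) : ℤ :=
  ∏ i ∈ range a, ((b : ℤ) * k - r + b * ((i : ℤ) + 1)) - (b : ℤ) ^ a

lemma N1_ne_zero {b r : ℕ} {k : ℤ} {a : ℕ} (hb : 1 ≤ b) (ha : 1 ≤ a) (hc : Nat.Coprime r b)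
    (h : ¬ (b = 1 ∧ k = r)) : N1 b r k a ≠ 0 := by
  intro h0
  rw [N1, sub_eq_zero] at h0
  rcases Nat.eq_or_lt_of_le hb with hb1 | hb2
  · subst hb1
    rcases Nat.eq_or_lt_of_le ha with ha1 | ha2
    · subst ha1
      simp at h0
      apply h
      exact ⟨rfl, by linarith⟩
    · obtain ⟨c, rfl⟩ := Nat.exists_eq_add_of_le' ha2
      rw [prod_range_succ', prod_range_succ'] at h0
      simp only [Nat.cast_one, one_mul, one_pow, Nat.cast_zero, zero_add] at h0
      have hu : IsUnit ((∏ x ∈ range c, (k - (r : ℤ) + ((((x + 1 + 1 : ℕ)) : ℤ) + 1))) *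
          (k - (r : ℤ) + (1 + 1)) * (k - (r : ℤ) + 1)) := by
        rw [h0]; exact isUnit_one
      have h1 := isUnit_of_mul_isUnit_right hu
      have h2 := isUnit_of_mul_isUnit_right (isUnit_of_mul_isUnit_left hu)
      rw [Int.isUnit_iff] at h1 h2
      omega
  · have hcop : IsCoprime (∏ i ∈ range a, ((b : ℤ) * k - r + b * ((i : ℤ) + 1))) ((b : ℤ) ^ a) := by
      apply IsCoprime.pow_right
      apply IsCoprime.prod_left
      intro i _
      have h1 : IsCoprime (r : ℤ) (b : ℤ) := Nat.isCoprime_iff_coprime.2 hc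
      have h2 : (b : ℤ) * k - r + b * ((i : ℤ) + 1) = -(r : ℤ) + b * (k + ((i : ℤ) + 1)) := by ring
      rw [h2]
      exact (h1.neg_left).add_mul_left_left _
    rw [h0] at hcop
    have h3 := isCoprime_self.1 hcop
    have h4 := (isUnit_pow_iff (by omega : a ≠ 0)).1 h3
    rw [Int.isUnit_iff] at h4
    omega

lemma N1_abs {b r : ℕ} {k : ℤ} {a B y : ℕ} (hb : 1 ≤ b) (hbB : b ≤ B) (hr : r ≤ B)
    (hk : |k| ≤ y) (ha : 1 ≤ a) (hay : a ≤ 2 * y) (hy : 1 ≤ y) :
    |((N1 b r k a : ℤ) : ℝ)| ≤ ((2 * B * y : ℕ) : ℝ) ^ (3 * a) := by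
  have h1 : |N1 b r k a| ≤ ((4 * B * y : ℕ) : ℤ) ^ a + ((4 * B * y : ℕ) : ℤ) ^ a := by
    unfold N1
    refine (abs_sub _ _).trans (add_le_add ?_ ?_)
    · rw [abs_prod]
      calc ∏ i ∈ range a, |(b : ℤ) * k - r + b * ((i : ℤ) + 1)|
          ≤ ∏ i ∈ range a, ((4 * B * y : ℕ) : ℤ) := by
            apply prod_le_prod (fun _ _ => abs_nonneg _)
            intro i hi
            rw [mem_range] at hi
            have hb' : (b : ℤ) ≤ B := by exact_mod_cast hbB
            have hb1 : (1 : ℤ) ≤ b := by exact_mod_cast hb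
            have hr' : (r : ℤ) ≤ B := by exact_mod_cast hr
            have hr0 : (0 : ℤ) ≤ r := by positivity
            have hi' : (i : ℤ) + 1 ≤ 2 * y := by
              have : i + 1 ≤ 2 * y := by omega
              exact_mod_cast this
            have hi0 : (0 : ℤ) ≤ i := by positivity
            have hy' : (1 : ℤ) ≤ y := by exact_mod_cast hy
            rw [abs_le] at hk
            obtain ⟨hk1, hk2⟩ := hk
            push_cast
            rw [abs_le]
            constructor <;> nlinarith [mul_le_mul_of_nonneg_right hb' (by positivity : (0:ℤ) ≤ y)]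
        _ = _ := by rw [prod_const, card_range]
    · rw [abs_of_nonneg (by positivity)]
      apply pow_le_pow_left₀ (by positivity)
      have : b ≤ 4 * B * y := by nlinarith
      exact_mod_cast this
  have hBy : 1 ≤ B * y := Nat.mul_pos (by omega) hy
  have h2 : (4 * B * y) ^ a + (4 * B * y) ^ a ≤ (2 * B * y) ^ (3 * a) := by
    calc (4 * B * y) ^ a + (4 * B * y) ^ a = 2 * (4 * B * y) ^ a := by ring
      _ ≤ 2 ^ a * (4 * B * y) ^ a := Nat.mul_le_mul_right _ (by
          calc 2 = 2 ^ 1 := rfl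
            _ ≤ 2 ^ a := Nat.pow_le_pow_right (by norm_num) ha)
      _ = (8 * (B * y)) ^ a := by rw [← mul_pow]; ring_nf
      _ ≤ ((2 * B * y) ^ 3) ^ a := by
          apply Nat.pow_le_pow_left
          have : (2 * B * y) ^ 3 = 8 * (B * y) ^ 3 := by ring
          rw [this]
          apply Nat.mul_le_mul_left
          calc B * y = (B * y) ^ 1 := (pow_one _).symm
            _ ≤ (B * y) ^ 3 := Nat.pow_le_pow_right hBy (by norm_num)
      _ = _ := by rw [← pow_mul]
  have h3 : |N1 b r k a| ≤ ((2 * B * y : ℕ) : ℤ) ^ (3 * a) := by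
    refine h1.trans ?_
    exact_mod_cast h2
  have h4 : ((|N1 b r k a| : ℤ) : ℝ) ≤ ((((2 * B * y : ℕ) : ℤ) ^ (3 * a) : ℤ) : ℝ) := by
    exact_mod_cast h3
  rw [Int.cast_abs] at h4
  refine h4.trans (le_of_eq ?_)
  push_cast
  ring

lemma N1_dvd {p n b r a : ℕ} {k m : ℤ} {u : ℕ} (hm : (u : ℤ) * p = b * m + r) (hk : (n : ℤ) = m + k)
    (h : (p : ℤ) ∣ ∏ i ∈ range a, ((n : ℤ) + ((i : ℤ) + 1)) - 1) : (p : ℤ) ∣ N1 b r k a := by
  have h1 : (p : ℤ) ∣ (b : ℤ) ^ a * (∏ i ∈ range a, ((n : ℤ) + ((i : ℤ) + 1)) - 1) := h.mul_left _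
  have h2 : (b : ℤ) ^ a * (∏ i ∈ range a, ((n : ℤ) + ((i : ℤ) + 1)) - 1)
      = ∏ i ∈ range a, ((b : ℤ) * n + b * ((i : ℤ) + 1)) - (b : ℤ) ^ a := by
    rw [mul_sub, mul_one]
    congr 1
    rw [← card_range a, ← prod_const, card_range, ← prod_mul_distrib]
    exact prod_congr rfl fun i _ => by ring
  have h3 : (∏ i ∈ range a, ((b : ℤ) * n + b * ((i : ℤ) + 1)) - (b : ℤ) ^ a) - N1 b r k a
      = ∏ i ∈ range a, ((b : ℤ) * n + b * ((i : ℤ) + 1))
        - ∏ i ∈ range a, ((b : ℤ) * k - r + b * ((i : ℤ) + 1)) := by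
    unfold N1; ring
  have h4 : (p : ℤ) ∣ ∏ i ∈ range a, ((b : ℤ) * n + b * ((i : ℤ) + 1))
        - ∏ i ∈ range a, ((b : ℤ) * k - r + b * ((i : ℤ) + 1)) := by
    rw [← Int.modEq_iff_dvd]
    apply Int.ModEq.prod
    intro i _
    rw [Int.modEq_iff_dvd]
    refine ⟨u, ?_⟩
    rw [hk]
    linarith
  rw [h2] at h1
  rw [← h3] at h4
  have := dvd_sub h1 h4
  simpa using this

end Pool.Agent.Helper27.SP
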