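import Pool.Agent.Helper27.SP.S2

/-!
Factorials modulo primes near special points, part 3: the theorem on rational multiples of `p`.
-/

set_option autoImplicit false

namespace Pool.Agent.Helper27.SP

open Finset
open scoped Nat

/-- the index set of the family -/
noncomputable def idx (B y : ℕ) : Finset ((ℕ × ℕ) × (ℤ × ℕ)) :=
  (Icc 1 B ×ˢ range (B + 1)) ×ˢ (Icc (-(y : ℤ)) y ×ˢ Icc 1 (2 * y))

lemma idx_card (B y : ℕ) (hB : 1 ≤ B) (hy : 1 ≤ y) : ((idx B y).card : ℝ) ≤ 12 * (B : ℝ) ^ 2 * (y : ℝ) ^ 2 := by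
  have h1 : (idx B y).card = (B * (B + 1)) * ((2 * y + 1) * (2 * y)) := by
    unfold idx
    rw [card_product, card_product, card_product, Nat.card_Icc, card_range, Int.card_Icc, Nat.card_Icc]
    congr 1
    congr 1
    omega
  rw [h1]
  have h2 : (B * (B + 1)) * ((2 * y + 1) * (2 * y)) ≤ (B * (2 * B)) * ((3 * y) * (2 * y)) := by
    gcongr <;> omega
  have h3 : (B * (2 * B)) * ((3 * y) * (2 * y)) = 12 * B ^ 2 * y ^ 2 := by ring
  rw [h3] at h2
  exact_mod_cast h2

theorem rational_points (B y K : ℕ) (hB : 1 ≤ B) (hy : 1 ≤ y) (hK : 1 ≤ K) :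
    ∃ S : Finset ℕ, (S.card : ℝ) ≤ 210 * (B : ℝ) ^ 2 * (y : ℝ) ^ 3 * Real.log (2 * B * y) / (K : ℝ) ^ 2 ∧
      ∀ p : ℕ, p.Prime → B < p → p ∉ S → ∀ b u : ℕ, 1 ≤ b → b ≤ B → u ≤ b → Nat.Coprime u b →
        ∀ lam : ℤ, ((Ico 1 p).filter fun n : ℕ => |(b : ℤ) * (n : ℤ) - u * p| ≤ b * y ∧
          (p : ℤ) ∣ (n ! : ℤ) - lam).card ≤ K := by
  classical
  have hBy : 1 ≤ B * y := Nat.mul_pos hB hy
  have hBy2 : (2 : ℝ) ≤ 2 * B * y := by
    have : (1 : ℝ) ≤ B * y := by exact_mod_cast hBy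
    linarith
  have hlog : 0 < Real.log (2 * B * y) := Real.log_pos (by linarith)
  obtain ⟨S, hS, H⟩ := few_primes (idx B y) (fun x => N1 x.1.1 x.1.2 x.2.1 x.2.2)
    (L := 6 * y * Real.log (2 * B * y)) (K := (K : ℝ) * (K + 1) / 2) (by positivity)
    (by
      rintro ⟨⟨b, r⟩, k, a⟩ hi hne
      simp only [idx, mem_product, Finset.mem_Icc, mem_range] at hi
      obtain ⟨⟨⟨hb1, hb2⟩, hr⟩, ⟨hk1, hk2⟩, ha1, ha2⟩ := hi
      simp only at hne ⊢
      have hay : a ≤ 2 * y := ha2
      have h1 := N1_abs (b := b) (r := r) (k := k) (a := a) (B := B) (y := y) hb1 hb2 (by omega)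
        (abs_le.2 ⟨hk1, hk2⟩) ha1 hay hy
      have h0 : (0 : ℝ) < |((N1 b r k a : ℤ) : ℝ)| := abs_pos.2 (by exact_mod_cast hne)
      have h2 := Real.log_le_log h0 h1
      rw [Real.log_pow] at h2
      push_cast at h2
      have h3 : (a : ℝ) ≤ 2 * y := by exact_mod_cast hay
      calc _ ≤ _ := h2
        _ ≤ 3 * (2 * y) * Real.log (2 * B * y) := by gcongr
        _ = _ := by ring)
    (by positivity)
  refine ⟨S, ?_, ?_⟩
  · have hl2 : (0.69 : ℝ) < Real.log 2 := by have := Real.log_two_gt_d9; linarith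
    have hK1 : (1 : ℝ) ≤ K := by exact_mod_cast hK
    have h1 : ((idx B y).card : ℝ) * (6 * y * Real.log (2 * B * y)) ≤
        (12 * (B : ℝ) ^ 2 * (y : ℝ) ^ 2) * (6 * y * Real.log (2 * B * y)) :=
      mul_le_mul_of_nonneg_right (idx_card B y hB hy) (by positivity)
    refine hS.trans ?_
    rw [div_le_div_iff₀ (by positivity) (by positivity)]
    have h2 : (K : ℝ) ^ 2 * 0.69 ≤ 2 * ((K : ℝ) * (K + 1) / 2 * Real.log 2) := by nlinarith
    have h3 : 0 ≤ (B : ℝ) ^ 2 * (y : ℝ) ^ 3 * Real.log (2 * B * y) := by positivity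
    calc ((idx B y).card : ℝ) * (6 * y * Real.log (2 * B * y)) * (K : ℝ) ^ 2
        ≤ (12 * (B : ℝ) ^ 2 * (y : ℝ) ^ 2) * (6 * y * Real.log (2 * B * y)) * (K : ℝ) ^ 2 :=
          mul_le_mul_of_nonneg_right h1 (by positivity)
      _ = 72 * ((B : ℝ) ^ 2 * (y : ℝ) ^ 3 * Real.log (2 * B * y)) * (K : ℝ) ^ 2 := by ring
      _ ≤ 210 * ((B : ℝ) ^ 2 * (y : ℝ) ^ 3 * Real.log (2 * B * y)) *
          ((K : ℝ) * (K + 1) / 2 * Real.log 2) := by nlinarith
      _ = _ := by ring
  · intro p hp hBp hpS b u hb1 hbB hub hcop lam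
    have hlt := H p hp hpS
    by_contra hgt
    push Not at hgt
    set A := (Ico 1 p).filter fun n : ℕ => |(b : ℤ) * (n : ℤ) - u * p| ≤ b * y ∧ (p : ℤ) ∣ (n ! : ℤ) - lam with hA
    have hA1 : ∀ n ∈ A, 1 ≤ n ∧ n < p ∧ |(b : ℤ) * (n : ℤ) - u * p| ≤ b * y ∧
        (p : ℤ) ∣ (n ! : ℤ) - lam := by
      intro n hn
      rw [hA, mem_filter, Finset.mem_Ico] at hn
      exact ⟨hn.1.1, hn.1.2, hn.2.1, hn.2.2⟩
    let r : ℕ := (u * p) % b
    let m : ℕ := (u * p) / b
    have hrb : r < b := Nat.mod_lt _ (by omega)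
    have hum : ((u : ℤ) * p) = b * (m : ℤ) + r := by
      have := Nat.div_add_mod (u * p) b
      have h2 : u * p = b * m + r := this.symm
      exact_mod_cast h2
    have hpb : Nat.Coprime p b := by
      rw [hp.coprime_iff_not_dvd]
      intro h
      have := Nat.le_of_dvd (by omega) h
      omega
    have hrc : Nat.Coprime r b := by
      have h1 : Nat.Coprime (u * p) b := Nat.Coprime.mul_left hcop hpb
      have h2 : Nat.gcd ((u * p) % b) b = Nat.gcd (u * p) b :=
        (Nat.gcd_rec b (u * p)).symm.trans (Nat.gcd_comm _ _)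
      rw [Nat.Coprime, h2]
      exact h1
    have hb0 : (0 : ℤ) < b := by exact_mod_cast hb1
    have hrb' : (r : ℤ) < b := by exact_mod_cast hrb
    have hr0 : (0 : ℤ) ≤ r := by positivity
    have hkey : ∀ n ∈ A, -(y : ℤ) ≤ (n : ℤ) - m ∧ (n : ℤ) - m ≤ y := by
      intro n hn
      obtain ⟨_, _, h3, _⟩ := hA1 n hn
      rw [hum, abs_le] at h3
      obtain ⟨h4, h5⟩ := h3
      constructor
      · by_contra hcon
        push Not at hcon
        have : (n : ℤ) - m + 1 ≤ -(y : ℤ) := by omega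
        nlinarith
      · by_contra hcon
        push Not at hcon
        have : (y : ℤ) + 1 ≤ (n : ℤ) - m := by omega
        nlinarith
    have hinj : (((A ×ˢ A).filter fun x => x.1 < x.2).card : ℝ) ≤
        (((idx B y).filter fun i => N1 i.1.1 i.1.2 i.2.1 i.2.2 ≠ 0 ∧
          (p : ℤ) ∣ N1 i.1.1 i.1.2 i.2.1 i.2.2).card : ℝ) := by
      have : ((A ×ˢ A).filter fun x => x.1 < x.2).card ≤
        ((idx B y).filter fun i => N1 i.1.1 i.1.2 i.2.1 i.2.2 ≠ 0 ∧
          (p : ℤ) ∣ N1 i.1.1 i.1.2 i.2.1 i.2.2).card := by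
        apply card_le_card_of_injOn (fun x : ℕ × ℕ => ((b, r), ((x.1 : ℤ) - m, x.2 - x.1)))
        · intro x hx
          rw [mem_coe, mem_filter, mem_product] at hx
          obtain ⟨⟨hx1, hx2⟩, hx3⟩ := hx
          obtain ⟨h1, h2, _, h4⟩ := hA1 _ hx1
          obtain ⟨_, _, _, h8⟩ := hA1 _ hx2
          obtain ⟨h9, h10⟩ := hkey _ hx1
          obtain ⟨h11, h12⟩ := hkey _ hx2
          rw [mem_coe, mem_filter]
          refine ⟨?_, ?_, ?_⟩
          · simp only [idx, mem_product, Finset.mem_Icc, mem_range]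
            refine ⟨⟨⟨hb1, hbB⟩, by omega⟩, ⟨h9, h10⟩, by omega, by omega⟩
          · simp only
            apply N1_ne_zero hb1 (by omega) hrc
            rintro ⟨hb, hk⟩
            have hr : r = 0 := by omega
            have hm : m = u * p := by
              have := hum
              rw [hb, hr] at this
              have h5 : (u : ℤ) * p = m := by simpa using this
              exact_mod_cast h5.symm
            rw [hr] at hk
            have h6 : x.1 = m := by
              have : (x.1 : ℤ) - m = 0 := by simpa using hk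
              omega
            have hu : u = 0 ∨ u = 1 := by omega
            rcases hu with hu | hu <;> rw [hu] at hm <;> omega
          · simp only
            apply N1_dvd (n := x.1) (m := m) (u := u) hum (by ring)
            have h13 : x.1 + (x.2 - x.1) = x.2 := by omega
            apply Pool.Agent.Helper7.FR.dvd_of_eq_fact hp h2 (lam := lam) h4
            rw [h13]
            exact h8
        · intro x hx x' hx' heq
          rw [mem_coe, mem_filter] at hx hx'
          simp only [Prod.mk.injEq, true_and] at heq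
          obtain ⟨h1, h2⟩ := heq
          have := hx.2
          have := hx'.2
          ext <;> omega
      exact_mod_cast this
    have hpc := pairs_card A
    have hAK : (K : ℝ) + 1 ≤ A.card := by exact_mod_cast hgt
    have hK1 : (1 : ℝ) ≤ K := by exact_mod_cast hK
    nlinarith

end Pool.Agent.Helper27.SP
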