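import Pool.Agent.Helper27.SP.S3

/-!
Factorials modulo primes near special points, part 4: roots of polynomials of small height.
-/

set_option autoImplicit false

namespace Pool.Agent.Helper27.SP

open Finset Polynomial
open scoped Nat

/-- `(X + k + 1) ... (X + k + a) - 1` -/
noncomputable def G (k : ℤ) (a : ℕ) : ℤ[X] := (Pool.Agent.Helper7.FR.P a).comp (X + C k)

lemma G_natDegree {a : ℕ} (ha : 1 ≤ a) (k : ℤ) : (G k a).natDegree = a := by
  unfold G
  rw [natDegree_comp, Pool.Agent.Helper7.FR.P_natDegree ha, natDegree_X_add_C, mul_one]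

lemma G_monic {a : ℕ} (ha : 1 ≤ a) (k : ℤ) : (G k a).Monic := by
  unfold G
  exact (Pool.Agent.Helper7.FR.P_monic ha).comp_X_add_C _

lemma G_eq (k : ℤ) (a : ℕ) : G k a = ∏ i ∈ range a, (X + C (k + ((i : ℤ) + 1))) - 1 := by
  unfold G Pool.Agent.Helper7.FR.P Pool.Agent.Helper7.FR.F
  rw [sub_comp, one_comp, Polynomial.prod_comp]
  congr 1
  apply prod_congr rfl
  intro i _
  rw [add_comp, X_comp, C_comp, add_assoc, ← C_add]

lemma G_eval (k : ℤ) (a : ℕ) (x : ℤ) :
    (G k a).eval x = ∏ i ∈ range a, (x + k + ((i : ℤ) + 1)) - 1 := by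
  unfold G
  rw [eval_comp, Pool.Agent.Helper7.FR.P_eval]
  simp

lemma G_irreducible {a : ℕ} (ha : 1 ≤ a) (k : ℤ) : Irreducible (G k a) := by
  have h := Pool.Agent.Helper7.FR.P_irreducible ha
  have : G k a = (Polynomial.algEquivAevalXAddC k) (Pool.Agent.Helper7.FR.P a) := by
    simp [G, Polynomial.comp, aeval_def, eval₂_eq_eval_map, Polynomial.algebraMap_eq]
  rw [this]
  exact (MulEquiv.irreducible_iff (Polynomial.algEquivAevalXAddC k)).2 h

lemma coprime_GF {a : ℕ} (ha : 1 ≤ a) (k : ℤ) {F : ℤ[X]} (hF : Irreducible F)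
    (h1 : F ≠ G k a) (h2 : F ≠ -G k a) :
    IsCoprime ((G k a).map (Int.castRingHom ℂ)) (F.map (Int.castRingHom ℂ)) := by
  have hG : Irreducible ((G k a).map (Int.castRingHom ℚ)) :=
    ((G_monic ha k).irreducible_iff_irreducible_map_fraction_map (K := ℚ)).1 (G_irreducible ha k)
  have hcop : IsCoprime ((G k a).map (Int.castRingHom ℚ)) (F.map (Int.castRingHom ℚ)) := by
    rw [hG.coprime_iff_not_dvd]
    intro hdvd
    have h3 : G k a ∣ F :=
      (IsPrimitive.Int.dvd_iff_map_cast_dvd_map_cast _ _ (G_monic ha k).isPrimitive).2 hdvd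
    obtain ⟨c, hc⟩ := h3
    rcases hF.isUnit_or_isUnit hc with h | h
    · exact (G_irreducible ha k).not_isUnit h
    · rw [Polynomial.isUnit_iff] at h
      obtain ⟨r, hr, rfl⟩ := h
      rcases Int.isUnit_iff.1 hr with hr | hr
      · apply h1; rw [hc, hr]; simp
      · apply h2; rw [hc, hr]; simp
  have := hcop.map (mapRingHom (algebraMap ℚ ℂ))
  simp only [coe_mapRingHom] at this
  convert this using 2 <;> ext <;> simp

lemma res_ne_zero {a : ℕ} (ha : 1 ≤ a) (k : ℤ) {F : ℤ[X]} (hF : Irreducible F)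
    (h1 : F ≠ G k a) (h2 : F ≠ -G k a) :
    resultant (G k a) F ≠ 0 := by
  intro h
  have e1 : ((resultant (G k a) F : ℤ) : ℂ) = 0 := by rw [h]; simp
  have e2 := resultant_map_map (G k a) F (G k a).natDegree F.natDegree (Int.castRingHom ℂ)
  rw [eq_intCast, e1] at e2
  have e3 : resultant ((G k a).map (Int.castRingHom ℂ)) (F.map (Int.castRingHom ℂ)) = 0 := by
    rw [natDegree_map_eq_of_injective Int.cast_injective,
      natDegree_map_eq_of_injective Int.cast_injective]
    exact e2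
  rw [resultant_eq_zero_iff] at e3
  exact e3.2 (coprime_GF ha k hF h1 h2)

lemma root_norm_G {a : ℕ} (ha : 1 ≤ a) (k : ℤ) {z : ℂ}
    (hz : ((G k a).map (Int.castRingHom ℂ)).eval z = 0) : ‖z‖ ≤ a + 1 + |(k : ℝ)| := by
  have h1 : ((Pool.Agent.Helper7.FR.P a).map (Int.castRingHom ℂ)).eval (z + k) = 0 := by
    unfold G at hz
    rw [Polynomial.map_comp, eval_comp] at hz
    simpa using hz
  have h2 := Pool.Agent.Helper7.FR.root_norm ha h1
  have h3 : ‖z‖ ≤ ‖z + k‖ + ‖(k : ℂ)‖ := by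
    have := norm_sub_le (z + k) (k : ℂ)
    rwa [add_sub_cancel_right] at this
  rw [Complex.norm_intCast] at h3
  linarith

lemma eval_norm {F : ℤ[X]} {d B : ℕ} (hd : F.natDegree ≤ d) (hc : ∀ i, |F.coeff i| ≤ B) {R : ℝ}
    (hR : 1 ≤ R) {z : ℂ} (hz : ‖z‖ ≤ R) :
    ‖(F.map (Int.castRingHom ℂ)).eval z‖ ≤ (d + 1) * B * R ^ d := by
  have h1 : (F.map (Int.castRingHom ℂ)).natDegree < d + 1 := by
    rw [natDegree_map_eq_of_injective Int.cast_injective]; omega
  rw [eval_eq_sum_range' h1]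
  calc ‖∑ i ∈ range (d + 1), (F.map (Int.castRingHom ℂ)).coeff i * z ^ i‖
      ≤ ∑ i ∈ range (d + 1), ‖(F.map (Int.castRingHom ℂ)).coeff i * z ^ i‖ := norm_sum_le _ _
    _ ≤ ∑ i ∈ range (d + 1), (B : ℝ) * R ^ d := by
        apply sum_le_sum
        intro i hi
        rw [mem_range] at hi
        rw [norm_mul, norm_pow, coeff_map, eq_intCast, Complex.norm_intCast]
        apply mul_le_mul
        · exact_mod_cast hc i
        · calc ‖z‖ ^ i ≤ R ^ i := pow_le_pow_left₀ (norm_nonneg _) hz i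
            _ ≤ R ^ d := pow_le_pow_right₀ hR (by omega)
        · positivity
        · positivity
    _ = _ := by rw [sum_const, card_range, nsmul_eq_mul]; push_cast; ring

lemma res_bound {a : ℕ} (ha : 1 ≤ a) (k : ℤ) {F : ℤ[X]} {d B : ℕ} (hd : F.natDegree ≤ d)
    (hc : ∀ i, |F.coeff i| ≤ B) :
    |((resultant (G k a) F : ℤ) : ℝ)| ≤ ((d + 1) * B * (a + 1 + |(k : ℝ)|) ^ d) ^ a := by
  have h2 := resultant_map_map (G k a) F (G k a).natDegree F.natDegree (Int.castRingHom ℂ)
  have h3 := resultant_eq_prod_eval ((G k a).map (Int.castRingHom ℂ))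
    (F.map (Int.castRingHom ℂ)) F.natDegree
    (le_of_eq (natDegree_map_eq_of_injective Int.cast_injective _)) (IsAlgClosed.splits _)
  rw [natDegree_map_eq_of_injective Int.cast_injective] at h3
  rw [h2, ((G_monic ha k).map _).leadingCoeff, one_pow, one_mul, eq_intCast] at h3
  have h4 : |((resultant (G k a) F : ℤ) : ℝ)| = ‖((resultant (G k a) F : ℤ) : ℂ)‖ := by
    rw [Complex.norm_intCast]
  rw [h4, h3]
  have hne : (G k a).map (Int.castRingHom ℂ) ≠ 0 := ((G_monic ha k).map _).ne_zero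
  have h5 := Pool.Agent.Helper7.FR.norm_prod_le ((G k a).map (Int.castRingHom ℂ)).roots
    (fun z => (F.map (Int.castRingHom ℂ)).eval z) ((d + 1) * B * (a + 1 + |(k : ℝ)|) ^ d) (by positivity)
    (fun z hz => eval_norm hd hc (by
      have : (0 : ℝ) ≤ a := by positivity
      have := abs_nonneg (k : ℝ)
      linarith) (root_norm_G ha k ((mem_roots hne).1 hz)))
  have h6 : ((G k a).map (Int.castRingHom ℂ)).roots.card = a := by
    rw [← (IsAlgClosed.splits ((G k a).map (Int.castRingHom ℂ))).natDegree_eq_card_roots,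
      natDegree_map_eq_of_injective Int.cast_injective, G_natDegree ha]
  rw [h6] at h5
  exact h5

end Pool.Agent.Helper27.SP
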