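import Pool.Agent.Helper27.SP.S4

/-!
Factorials modulo primes near special points, part 5: the theorem on roots of polynomials.
-/

set_option autoImplicit false

namespace Pool.Agent.Helper27.SP

open Finset Polynomial
open scoped Nat

/-- the polynomial with the given coefficients -/
noncomputable def pol (d : ℕ) (c : Fin (d + 1) → ℤ) : ℤ[X] := ∑ i : Fin (d + 1), C (c i) * X ^ (i : ℕ)

lemma pol_coeff (d : ℕ) (c : Fin (d + 1) → ℤ) (n : ℕ) :
    (pol d c).coeff n = if h : n < d + 1 then c ⟨n, h⟩ else 0 := by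
  unfold pol
  rw [finsetSum_coeff]
  simp only [coeff_C_mul_X_pow]
  split_ifs with h
  · rw [sum_eq_single ⟨n, h⟩]
    · simp
    · intro i _ hi
      rw [if_neg]
      intro hn
      exact hi (Fin.ext hn.symm)
    · intro hn; exact absurd (mem_univ _) hn
  · apply sum_eq_zero
    intro i _
    rw [if_neg]
    intro hn
    have := i.2
    omega

lemma pol_natDegree (d : ℕ) (c : Fin (d + 1) → ℤ) : (pol d c).natDegree ≤ d := by
  rw [natDegree_le_iff_coeff_eq_zero]
  intro n hn
  rw [pol_coeff, dif_neg (by omega)]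

lemma eq_pol {F : ℤ[X]} {d : ℕ} (hd : F.natDegree ≤ d) : F = pol d fun i => F.coeff i := by
  ext n
  rw [pol_coeff]
  split_ifs with h
  · rfl
  · exact coeff_eq_zero_of_natDegree_lt (by omega)

/-- the index set -/
noncomputable def idx2 (d B y : ℕ) : Finset ((Fin (d + 1) → ℤ) × (ℤ × ℕ)) :=
  (Fintype.piFinset fun _ : Fin (d + 1) => Finset.Icc (-(B : ℤ)) B) ×ˢ
    (Finset.Icc (-(y : ℤ)) y ×ˢ Finset.Icc 1 (2 * y))

lemma idx2_card (d B y : ℕ) (hB : 1 ≤ B) (hy : 1 ≤ y) :
    ((idx2 d B y).card : ℝ) ≤ 6 * (3 * (B : ℝ)) ^ (d + 1) * (y : ℝ) ^ 2 := by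
  have h1 : (idx2 d B y).card = (2 * B + 1) ^ (d + 1) * ((2 * y + 1) * (2 * y)) := by
    unfold idx2
    rw [card_product, card_product, Fintype.card_piFinset, Int.card_Icc, Nat.card_Icc, prod_const,
      Int.card_Icc, Finset.card_univ, Fintype.card_fin]
    congr 2
    · omega
    · omega
  rw [h1]
  have h2 : (2 * B + 1) ^ (d + 1) * ((2 * y + 1) * (2 * y)) ≤ (3 * B) ^ (d + 1) * ((3 * y) * (2 * y)) := by
    gcongr <;> omega
  have h3 : (3 * B) ^ (d + 1) * ((3 * y) * (2 * y)) = 6 * (3 * B) ^ (d + 1) * y ^ 2 := by ring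
  rw [h3] at h2
  exact_mod_cast h2

theorem algebraic_points (d B y : ℕ) (hd : 1 ≤ d) (hB : 1 ≤ B) (hy : 1 ≤ y) :
    ∃ S : Finset ℕ, (S.card : ℝ) ≤ 90 * d * (3 * (B : ℝ)) ^ (d + 1) * (y : ℝ) ^ 3 *
        Real.log (2 * B * y) ∧
      ∀ p : ℕ, p.Prime → p ∉ S → ∀ F : ℤ[X], Irreducible F → F.natDegree ≤ d →
        (∀ i, |F.coeff i| ≤ B) → ∀ m : ℤ, (p : ℤ) ∣ F.eval m → ∀ n n' : ℕ, n < p → n < n' →
        |(n : ℤ) - m| ≤ y → |(n' : ℤ) - m| ≤ y → (p : ℤ) ∣ (n' ! : ℤ) - n ! →
        F = ∏ i ∈ range (n' - n), (X + C ((n : ℤ) - m + ((i : ℤ) + 1))) - 1 ∨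
        F = -(∏ i ∈ range (n' - n), (X + C ((n : ℤ) - m + ((i : ℤ) + 1))) - 1) := by
  classical
  have hBy : 1 ≤ B * y := Nat.mul_pos hB hy
  have hB1 : (1 : ℝ) ≤ B := by exact_mod_cast hB
  have hy1 : (1 : ℝ) ≤ y := by exact_mod_cast hy
  have hd1 : (1 : ℝ) ≤ d := by exact_mod_cast hd
  have hBy2 : (2 : ℝ) ≤ 2 * B * y := by
    have : (1 : ℝ) ≤ B * y := by exact_mod_cast hBy
    linarith
  have hlog : 0 < Real.log (2 * B * y) := Real.log_pos (by linarith)
  have hl2 : (0.69 : ℝ) < Real.log 2 := by have := Real.log_two_gt_d9; linarith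
  obtain ⟨S, hS, H⟩ := few_primes (idx2 d B y) (fun x => resultant (G x.2.1 x.2.2) (pol d x.1))
    (L := 10 * d * y * Real.log (2 * B * y)) (K := 1) (by positivity)
    (by
      rintro ⟨c, k, a⟩ hi hne
      simp only [idx2, mem_product, Finset.mem_Icc, Fintype.mem_piFinset] at hi
      obtain ⟨hc, ⟨hk1, hk2⟩, ha1, ha2⟩ := hi
      simp only at hne ⊢
      have hcc : ∀ i, |(pol d c).coeff i| ≤ B := by
        intro i
        rw [pol_coeff]
        split_ifs with h
        · exact abs_le.2 (hc _)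
        · simp
      have h1 := res_bound ha1 k (pol_natDegree d c) hcc
      have h0 : (0 : ℝ) < |((resultant (G k a) (pol d c) : ℤ) : ℝ)| :=
        abs_pos.2 (by exact_mod_cast hne)
      have h2 := Real.log_le_log h0 h1
      have hk' : |(k : ℝ)| ≤ y := by
        rw [abs_le]
        constructor
        · have : ((-(y : ℤ) : ℤ) : ℝ) ≤ (k : ℝ) := by exact_mod_cast hk1
          push_cast at this
          exact this
        · exact_mod_cast hk2
      have hk0 := abs_nonneg (k : ℝ)
      have ha' : (a : ℝ) ≤ 2 * y := by exact_mod_cast ha2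
      have ha0 : (0 : ℝ) ≤ a := by positivity
      have hR0 : (1 : ℝ) ≤ a + 1 + |(k : ℝ)| := by linarith
      have hR : (a : ℝ) + 1 + |(k : ℝ)| ≤ (2 * B * y) ^ 2 := by
        have e1 : (1 : ℝ) ≤ B * y := by exact_mod_cast hBy
        have e2 : (y : ℝ) ≤ B * y := by nlinarith
        nlinarith
      rw [Real.log_pow, Real.log_mul (by positivity) (by positivity),
        Real.log_mul (by positivity) (by positivity), Real.log_pow] at h2
      have h3 : Real.log (d + 1) ≤ d := by
        have := Real.log_le_sub_one_of_pos (show (0 : ℝ) < d + 1 by positivity)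
        linarith
      have h3' : (d : ℝ) ≤ 1.45 * d * Real.log (2 * B * y) := by
        have : Real.log 2 ≤ Real.log (2 * B * y) := Real.log_le_log (by norm_num) hBy2
        nlinarith
      have h4 : Real.log B ≤ d * Real.log (2 * B * y) := by
        have : Real.log B ≤ Real.log (2 * B * y) := Real.log_le_log (by linarith) (by nlinarith)
        nlinarith
      have h5 : Real.log (a + 1 + |(k : ℝ)|) ≤ 2 * Real.log (2 * B * y) := by
        have := Real.log_le_log (by linarith) hR
        rw [Real.log_pow] at this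
        push_cast at this
        exact this
      have h6 : (d : ℝ) * Real.log (a + 1 + |(k : ℝ)|) ≤ d * (2 * Real.log (2 * B * y)) :=
        mul_le_mul_of_nonneg_left h5 (by positivity)
      have h7 : Real.log (d + 1) + Real.log B + d * Real.log (a + 1 + |(k : ℝ)|) ≤
          5 * d * Real.log (2 * B * y) := by
        have : 0 ≤ (d : ℝ) * Real.log (2 * B * y) := by positivity
        linarith
      calc _ ≤ _ := h2
        _ ≤ (a : ℝ) * (5 * d * Real.log (2 * B * y)) := mul_le_mul_of_nonneg_left h7 ha0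
        _ ≤ (2 * y) * (5 * d * Real.log (2 * B * y)) := by
            apply mul_le_mul_of_nonneg_right ha'; positivity
        _ = _ := by ring)
    one_pos
  refine ⟨S, ?_, ?_⟩
  · refine hS.trans ?_
    rw [one_mul, div_le_iff₀ (by linarith)]
    have h1 := mul_le_mul_of_nonneg_right (idx2_card d B y hB hy)
      (by positivity : 0 ≤ 10 * d * y * Real.log (2 * B * y))
    have h3 : 0 ≤ d * (3 * (B : ℝ)) ^ (d + 1) * (y : ℝ) ^ 3 * Real.log (2 * B * y) := by positivity
    calc _ ≤ _ := h1
      _ = 60 * (d * (3 * (B : ℝ)) ^ (d + 1) * (y : ℝ) ^ 3 * Real.log (2 * B * y)) := by ring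
      _ ≤ 90 * (d * (3 * (B : ℝ)) ^ (d + 1) * (y : ℝ) ^ 3 * Real.log (2 * B * y)) *
          Real.log 2 := by nlinarith
      _ = _ := by ring
  · intro p hp hpS F hF hdeg hco m hm n n' hnp hnn h1 h2 hdvd
    by_contra hcon
    push Not at hcon
    obtain ⟨hc1, hc2⟩ := hcon
    rw [← G_eq] at hc1 hc2
    have ha : 1 ≤ n' - n := by omega
    have hlt := H p hp hpS
    rw [abs_le] at h1 h2
    have hpos : 0 < ((idx2 d B y).filter fun x : (Fin (d + 1) → ℤ) × (ℤ × ℕ) =>
        resultant (G x.2.1 x.2.2) (pol d x.1) ≠ 0 ∧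
        (p : ℤ) ∣ resultant (G x.2.1 x.2.2) (pol d x.1)).card := by
      rw [card_pos]
      refine ⟨(fun i => F.coeff i, ((n : ℤ) - m, n' - n)), ?_⟩
      rw [mem_filter]
      refine ⟨?_, ?_, ?_⟩
      · simp only [idx2, mem_product, Finset.mem_Icc, Fintype.mem_piFinset]
        refine ⟨fun i => abs_le.1 (hco _), ⟨h1.1, h1.2⟩, ha, by omega⟩
      · simp only
        rw [← eq_pol hdeg]
        exact res_ne_zero ha _ hF hc1 hc2
      · simp only
        rw [← eq_pol hdeg]
        have h3 : (p : ℤ) ∣ (G ((n : ℤ) - m) (n' - n)).eval m := by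
          rw [G_eval]
          have h4 := Pool.Agent.Helper7.FR.dvd_of_eq_fact (a := n' - n) hp hnp (lam := (n ! : ℤ))
            (by simp) (by
              have : n + (n' - n) = n' := by omega
              rw [this]; exact hdvd)
          have h5 : ∀ i : ℕ, m + ((n : ℤ) - m) + ((i : ℤ) + 1) = (n : ℤ) + ((i : ℤ) + 1) := by
            intro i; ring
          simp only [h5]
          exact h4
        have h6 := Pool.Agent.Helper7.FR.pow_dvd_resultant hp {m} (f := G ((n : ℤ) - m) (n' - n)) (g := F)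
          (by
            intro c hc e he _
            rw [mem_singleton] at hc he
            rw [hc, he])
          (by intro c hc; rw [mem_singleton] at hc; rw [hc]; exact h3)
          (by intro c hc; rw [mem_singleton] at hc; rw [hc]; exact hm)
          (by rw [card_singleton, G_natDegree ha]; omega)
        rwa [card_singleton, pow_one] at h6
    have : (1 : ℝ) ≤ (((idx2 d B y).filter fun x : (Fin (d + 1) → ℤ) × (ℤ × ℕ) =>
        resultant (G x.2.1 x.2.2) (pol d x.1) ≠ 0 ∧
        (p : ℤ) ∣ resultant (G x.2.1 x.2.2) (pol d x.1)).card : ℝ) := by exact_mod_cast hpos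
    linarith

end Pool.Agent.Helper27.SP
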