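import Pool.Agent.Helper27.SP.S1

/-!
Factorials modulo primes near special points, part 6: the values `1` and `-1` near `0`, `p / 2`
and `p`.
-/

set_option autoImplicit false

namespace Pool.Agent.Helper27.SP

open Finset
open scoped Nat

lemma reflect {p : ℕ} [Fact p.Prime] : ∀ k : ℕ, k ≤ p - 1 →
    (((p - 1 - k)! : ℕ) : ZMod p) * ((k ! : ℕ) : ZMod p) = (-1) ^ (k + 1) := by
  intro k
  induction k with
  | zero =>
    intro _
    simp [ZMod.wilsons_lemma]
  | succ k ih =>
    intro hk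
    have h1 := ih (by omega)
    have h2 : p - 1 - k = (p - 1 - (k + 1)) + 1 := by omega
    rw [h2, Nat.factorial_succ] at h1
    have h3 : (((p - 1 - (k + 1) + 1 : ℕ)) : ZMod p) = -(((k + 1 : ℕ)) : ZMod p) := by
      rw [eq_neg_iff_add_eq_zero]
      have : (p - 1 - (k + 1) + 1) + (k + 1) = p := by omega
      rw [← Nat.cast_add, this, ZMod.natCast_self]
    push_cast at h1 h3
    rw [Nat.factorial_succ]
    push_cast
    rw [h3] at h1
    linear_combination -h1

lemma reflect_sq {p n k : ℕ} [Fact p.Prime] (h : n + k = p - 1) :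
    ((n ! : ℕ) : ZMod p) ^ 2 * ((k ! : ℕ) : ZMod p) ^ 2 = 1 := by
  have h1 := reflect (p := p) k (by omega)
  have h2 : p - 1 - k = n := by omega
  rw [h2] at h1
  rw [← mul_pow, h1, ← pow_mul, mul_comm, pow_mul]
  simp

/-- product of the first `k` odd numbers -/
def od (k : ℕ) : ℕ := ∏ j ∈ range k, (2 * j + 1)

lemma half_shift {p h : ℕ} [Fact p.Prime] (hp : 2 * h + 1 = p) (k : ℕ) :
    (2 : ZMod p) ^ k * (((h + k)! : ℕ) : ZMod p) = ((h ! : ℕ) : ZMod p) * ((od k : ℕ) : ZMod p) := by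
  induction k with
  | zero => simp [od]
  | succ k ih =>
    have h1 : (2 : ZMod p) * ((h + k + 1 : ℕ) : ZMod p) = ((2 * k + 1 : ℕ) : ZMod p) := by
      have h2 : ((2 * h + 1 : ℕ) : ZMod p) = 0 := by rw [hp]; exact ZMod.natCast_self p
      push_cast at h2 ⊢
      linear_combination h2
    have h3 : od (k + 1) = od k * (2 * k + 1) := by unfold od; rw [prod_range_succ]
    rw [h3, ← add_assoc, Nat.factorial_succ]
    push_cast at h1 ⊢
    linear_combination (2 * ((h : ZMod p) + k + 1)) * ih + ((h ! : ℕ) : ZMod p) * ((od k : ℕ) : ZMod p) * h1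

/-- the two families of integers -/
def N6 (t : Bool) (k : ℕ) : ℤ := if t then ((k ! : ℕ) : ℤ) ^ 2 - 1 else ((od k : ℕ) : ℤ) ^ 4 - 16 ^ k

lemma od_odd (k : ℕ) : Odd (od k) := by
  unfold od
  induction k with
  | zero => simp
  | succ k ih => rw [prod_range_succ]; exact ih.mul ⟨k, rfl⟩

lemma N6_ne {t : Bool} {k : ℕ} (hk : 1 ≤ k) (h : t = true → 2 ≤ k) : N6 t k ≠ 0 := by
  unfold N6
  cases t with
  | true =>
    have h2 := h rfl
    rw [if_pos rfl]
    have h3 : 2 ≤ k ! := by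
      calc 2 = 2 ! := rfl
        _ ≤ k ! := Nat.factorial_le h2
    have h4 : (2 : ℤ) ≤ ((k ! : ℕ) : ℤ) := by exact_mod_cast h3
    nlinarith
  | false =>
    simp only [Bool.false_eq_true, if_false]
    intro h0
    rw [sub_eq_zero] at h0
    have h1 : Odd (((od k : ℕ) : ℤ) ^ 4) := by
      apply Odd.pow
      exact_mod_cast od_odd k
    rw [h0] at h1
    have h2 : Even ((16 : ℤ) ^ k) := by
      apply Even.pow_of_ne_zero _ (by omega)
      exact ⟨8, by norm_num⟩
    exact (Int.not_even_iff_odd.2 h1) h2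

lemma N6_log {t : Bool} {k y : ℕ} (hk : 1 ≤ k) (hky : k ≤ y) (hne : N6 t k ≠ 0) :
    Real.log |((N6 t k : ℤ) : ℝ)| ≤ 4 * y * Real.log (2 * y) := by
  have hy : 1 ≤ y := by omega
  have hy1 : (1 : ℝ) ≤ y := by exact_mod_cast hy
  have h0 : (0 : ℝ) < |((N6 t k : ℤ) : ℝ)| := abs_pos.2 (by exact_mod_cast hne)
  have hle : |((N6 t k : ℤ) : ℝ)| ≤ ((2 * y : ℝ) ^ k) ^ 4 := by
    have e0 : |N6 t k| ≤ (((2 * y) ^ k) ^ 4 : ℕ) := by
      unfold N6
      cases t with
      | true =>
        rw [if_pos rfl]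
        have h1 : k ! ≤ (2 * y) ^ k := by
          calc k ! ≤ k ^ k := Nat.factorial_le_pow k
            _ ≤ (2 * y) ^ k := Nat.pow_le_pow_left (by omega) k
        have h2 : 1 ≤ k ! := Nat.factorial_pos k
        have h3 : (k !) ^ 2 ≤ ((2 * y) ^ k) ^ 4 := by
          calc (k !) ^ 2 ≤ ((2 * y) ^ k) ^ 2 := Nat.pow_le_pow_left h1 2
            _ ≤ ((2 * y) ^ k) ^ 4 := Nat.pow_le_pow_right (Nat.pos_of_ne_zero (by positivity)) (by norm_num)
        have h4 : (((k ! : ℕ) : ℤ)) ^ 2 ≤ ((((2 * y) ^ k) ^ 4 : ℕ) : ℤ) := by exact_mod_cast h3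
        have h5 : (1 : ℤ) ≤ ((k ! : ℕ) : ℤ) := by exact_mod_cast h2
        rw [abs_le]
        constructor
        · nlinarith
        · linarith
      | false =>
        simp only [Bool.false_eq_true, if_false]
        have h1 : od k ≤ (2 * y) ^ k := by
          unfold od
          calc ∏ j ∈ range k, (2 * j + 1) ≤ ∏ j ∈ range k, (2 * y) := by
                apply prod_le_prod' fun j hj => ?_
                rw [mem_range] at hj
                omega
            _ = _ := by rw [prod_const, card_range]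
        have h3 : (od k) ^ 4 ≤ ((2 * y) ^ k) ^ 4 := Nat.pow_le_pow_left h1 4
        have h4 : (((od k : ℕ) : ℤ)) ^ 4 ≤ ((((2 * y) ^ k) ^ 4 : ℕ) : ℤ) := by exact_mod_cast h3
        have h5 : 16 ^ k ≤ ((2 * y) ^ k) ^ 4 := by
          calc 16 ^ k = (2 ^ k) ^ 4 := by rw [← pow_mul, mul_comm, pow_mul]; norm_num
            _ ≤ ((2 * y) ^ k) ^ 4 := by
              apply Nat.pow_le_pow_left
              apply Nat.pow_le_pow_left
              omega
        have h6 : ((16 : ℤ)) ^ k ≤ ((((2 * y) ^ k) ^ 4 : ℕ) : ℤ) := by exact_mod_cast h5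
        have h7 : (0 : ℤ) ≤ ((od k : ℕ) : ℤ) ^ 4 := by positivity
        have h8 : (0 : ℤ) ≤ (16 : ℤ) ^ k := by positivity
        rw [abs_le]
        constructor <;> linarith
    have e1 : ((|N6 t k| : ℤ) : ℝ) ≤ (((((2 * y) ^ k) ^ 4 : ℕ) : ℤ) : ℝ) := by exact_mod_cast e0
    rw [Int.cast_abs] at e1
    refine e1.trans (le_of_eq ?_)
    push_cast
    ring
  have h1 := Real.log_le_log h0 hle
  rw [Real.log_pow, Real.log_pow] at h1
  push_cast at h1
  have hl : 0 ≤ Real.log (2 * y) := Real.log_nonneg (by linarith)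
  have hk' : (k : ℝ) ≤ y := by exact_mod_cast hky
  calc _ ≤ _ := h1
    _ ≤ 4 * ((y : ℝ) * Real.log (2 * y)) := by gcongr
    _ = _ := by ring

end Pool.Agent.Helper27.SP
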