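import Pool.Agent.Helper27.SP.S6

/-!
Factorials modulo primes near special points, part 7: few primes have many solutions of
`n! ≡ 1` or `n! ≡ -1` near `0`, `p / 2` and `p`.
-/

set_option autoImplicit false

namespace Pool.Agent.Helper27.SP

open Finset
open scoped Nat

lemma sq_one_of_dvd {p n : ℕ} [Fact p.Prime] (h : (p : ℤ) ∣ ((n ! : ℕ) : ℤ) ^ 2 - 1) :
    ((n ! : ℕ) : ZMod p) ^ 2 = 1 := by
  have := (ZMod.intCast_zmod_eq_zero_iff_dvd (((n ! : ℕ) : ℤ) ^ 2 - 1) p).2 h
  push_cast at this
  rwa [sub_eq_zero] at this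

lemma dvd_true {p k : ℕ} [Fact p.Prime] (h : ((k ! : ℕ) : ZMod p) ^ 2 = 1) :
    (p : ℤ) ∣ N6 true k := by
  rw [← ZMod.intCast_zmod_eq_zero_iff_dvd, N6, if_pos rfl]
  push_cast
  rw [h, sub_self]

lemma dvd_false {p h k : ℕ} [Fact p.Prime] (hp : 2 * h + 1 = p)
    (hs : (((h + k)! : ℕ) : ZMod p) ^ 2 = 1) : (p : ℤ) ∣ N6 false k := by
  rw [← ZMod.intCast_zmod_eq_zero_iff_dvd, N6]
  simp only [Bool.false_eq_true, if_false]
  have h1 := half_shift hp k
  have h2 := reflect_sq (p := p) (n := h) (k := h) (by omega)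
  have h3 : ((2 : ZMod p) ^ k * (((h + k)! : ℕ) : ZMod p)) ^ 4 =
      (((h ! : ℕ) : ZMod p) * ((od k : ℕ) : ZMod p)) ^ 4 := by rw [h1]
  have h4 : ((2 : ZMod p) ^ k * (((h + k)! : ℕ) : ZMod p)) ^ 4 = 16 ^ k := by
    have : (((h + k)! : ℕ) : ZMod p) ^ 4 = 1 := by
      rw [show (4 : ℕ) = 2 * 2 by norm_num, pow_mul, hs, one_pow]
    rw [mul_pow, this, mul_one, ← pow_mul, mul_comm, pow_mul]
    norm_num
  have h5 : (((h ! : ℕ) : ZMod p) * ((od k : ℕ) : ZMod p)) ^ 4 = ((od k : ℕ) : ZMod p) ^ 4 := by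
    rw [mul_pow]
    have : ((h ! : ℕ) : ZMod p) ^ 4 = 1 := by
      rw [show (4 : ℕ) = 2 + 2 by norm_num, pow_add, h2]
    rw [this, one_mul]
  rw [h4, h5] at h3
  push_cast
  rw [← h3, sub_self]

/-- the index set: type, side, distance -/
def idx6 (y : ℕ) : Finset ((Bool × Bool) × ℕ) := univ ×ˢ Icc 1 y

theorem special_values (y K : ℕ) (hy : 1 ≤ y) (hK : 1 ≤ K) :
    ∃ S : Finset ℕ, (S.card : ℝ) ≤ 24 * (y : ℝ) ^ 2 * Real.log (2 * y) / K ∧
      ∀ p : ℕ, p.Prime → p ∉ S →
        ((Ico 1 p).filter fun n : ℕ => (p : ℤ) ∣ (n ! : ℤ) ^ 2 - 1 ∧ n ≠ 1 ∧ 2 * n + 1 ≠ p ∧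
          n + 2 ≠ p ∧ n + 1 ≠ p ∧ (n ≤ y ∨ |2 * (n : ℤ) - p| ≤ 2 * y ∨ p ≤ n + y)).card < K := by
  classical
  have hy1 : (1 : ℝ) ≤ y := by exact_mod_cast hy
  have hlog : 0 < Real.log (2 * y) := Real.log_pos (by linarith)
  have hK1 : (1 : ℝ) ≤ K := by exact_mod_cast hK
  have hl2 : (0.69 : ℝ) < Real.log 2 := by have := Real.log_two_gt_d9; linarith
  obtain ⟨S, hS, H⟩ := few_primes (idx6 y) (fun x => N6 x.1.1 x.2)
    (L := 4 * y * Real.log (2 * y)) (K := K) (by positivity)
    (by
      rintro ⟨⟨t, s⟩, k⟩ hi hne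
      simp only [idx6, mem_product, Finset.mem_Icc] at hi
      exact N6_log hi.2.1 hi.2.2 hne)
    (by linarith)
  refine ⟨S, ?_, ?_⟩
  · refine hS.trans ?_
    have hc : ((idx6 y).card : ℝ) = 4 * y := by
      have : (idx6 y).card = 4 * y := by
        unfold idx6
        rw [card_product, Nat.card_Icc, Finset.card_univ]
        simp
      exact_mod_cast this
    rw [hc, div_le_div_iff₀ (by positivity) (by linarith)]
    have h3 : 0 ≤ (y : ℝ) ^ 2 * Real.log (2 * y) * K := by positivity
    calc 4 * (y : ℝ) * (4 * y * Real.log (2 * y)) * K = 16 * ((y : ℝ) ^ 2 * Real.log (2 * y) * K) := by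
          ring
      _ ≤ 24 * ((y : ℝ) ^ 2 * Real.log (2 * y) * K) * Real.log 2 := by nlinarith
      _ = _ := by ring
  · intro p hp hpS
    have : Fact p.Prime := ⟨hp⟩
    have hlt := H p hp hpS
    have hle : ((Ico 1 p).filter fun n : ℕ => (p : ℤ) ∣ (n ! : ℤ) ^ 2 - 1 ∧ n ≠ 1 ∧ 2 * n + 1 ≠ p ∧
          n + 2 ≠ p ∧ n + 1 ≠ p ∧ (n ≤ y ∨ |2 * (n : ℤ) - p| ≤ 2 * y ∨ p ≤ n + y)).card ≤
        ((idx6 y).filter fun i => N6 i.1.1 i.2 ≠ 0 ∧ (p : ℤ) ∣ N6 i.1.1 i.2).card := by
      let f : ℕ → (Bool × Bool) × ℕ := fun n =>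
        if n ≤ y then ((true, true), n) else if p ≤ n + y then ((true, false), p - 1 - n) else
          if p < 2 * n + 1 then ((false, true), n - (p - 1) / 2) else
            ((false, false), (p - 1) / 2 - n)
      apply card_le_card_of_injOn f
      · intro n hn
        rw [mem_coe, mem_filter, Finset.mem_Ico] at hn
        obtain ⟨⟨hn1, hn2⟩, hdvd, ne1, ne2, ne3, ne4, hnear⟩ := hn
        have hsq := sq_one_of_dvd hdvd
        have hrefl := reflect_sq (p := p) (n := n) (k := p - 1 - n) (by omega)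
        rw [hsq, one_mul] at hrefl
        rw [mem_coe, mem_filter]
        simp only [f]
        split_ifs with c1 c2 c3
        · refine ⟨?_, ?_, ?_⟩
          · simp only [idx6, mem_product, Finset.mem_Icc, mem_univ, true_and]; omega
          · exact N6_ne (by omega) (fun _ => by omega)
          · exact dvd_true hsq
        · refine ⟨?_, ?_, ?_⟩
          · simp only [idx6, mem_product, Finset.mem_Icc, mem_univ, true_and]; omega
          · exact N6_ne (by omega) (fun _ => by omega)
          · exact dvd_true hrefl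
        · have hodd : p % 2 = 1 := by
            rcases hp.eq_two_or_odd with h | h
            · omega
            · exact h
          have hne : |2 * (n : ℤ) - p| ≤ 2 * y := by
            rcases hnear with h | h | h
            · omega
            · exact h
            · omega
          rw [abs_le] at hne
          refine ⟨?_, ?_, ?_⟩
          · simp only [idx6, mem_product, Finset.mem_Icc, mem_univ, true_and]; omega
          · exact N6_ne (by simp only; omega) (fun h => by simp at h)
          · apply dvd_false (h := (p - 1) / 2) (by omega)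
            have : (p - 1) / 2 + (n - (p - 1) / 2) = n := by omega
            simp only [this]
            exact hsq
        · have hodd : p % 2 = 1 := by
            rcases hp.eq_two_or_odd with h | h
            · omega
            · exact h
          have hne : |2 * (n : ℤ) - p| ≤ 2 * y := by
            rcases hnear with h | h | h
            · omega
            · exact h
            · omega
          rw [abs_le] at hne
          refine ⟨?_, ?_, ?_⟩
          · simp only [idx6, mem_product, Finset.mem_Icc, mem_univ, true_and]; omega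
          · exact N6_ne (by simp only; omega) (fun h => by simp at h)
          · apply dvd_false (h := (p - 1) / 2) (by omega)
            have : (p - 1) / 2 + ((p - 1) / 2 - n) = p - 1 - n := by omega
            simp only [this]
            exact hrefl
      · intro n hn n' hn' heq
        rw [mem_coe, mem_filter, Finset.mem_Ico] at hn hn'
        simp only [f] at heq
        split_ifs at heq <;> simp at heq <;> omega
    have h1 : (((Ico 1 p).filter fun n : ℕ => (p : ℤ) ∣ (n ! : ℤ) ^ 2 - 1 ∧ n ≠ 1 ∧ 2 * n + 1 ≠ p ∧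
          n + 2 ≠ p ∧ n + 1 ≠ p ∧ (n ≤ y ∨ |2 * (n : ℤ) - p| ≤ 2 * y ∨ p ≤ n + y)).card : ℝ) < K :=
      lt_of_le_of_lt (by exact_mod_cast hle) hlt
    exact_mod_cast h1

end Pool.Agent.Helper27.SP
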